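import Pool.Agent.Lib.MP_1e5ad7_co.Data1
import Pool.Agent.Lib.MP_1e5ad7_co.Data2

set_option autoImplicit false

namespace Pool.Agent.Lib.MP_1e5ad7_co

theorem all_ranges {r : ℝ} (hr : 0 < r)
    (h0 : Real.exp (-(2 * r)) ≤ (mkRat 11317 16384 : ℚ)) : Stmt r := by
  rcases lt_or_ge (((mkRat 723229 1048576 : ℚ)) : ℝ) (Real.exp (-(2 * r))) with h | h1
  · exact cover_sound cov0 hr h h0
  rcases lt_or_ge (((mkRat 721703 1048576 : ℚ)) : ℝ) (Real.exp (-(2 * r))) with h | h2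
  · exact cover_sound cov1 hr h h1
  rcases lt_or_ge (((mkRat 89935 131072 : ℚ)) : ℝ) (Real.exp (-(2 * r))) with h | h3
  · exact cover_sound cov2 hr h h2
  rcases lt_or_ge (((mkRat 358117 524288 : ℚ)) : ℝ) (Real.exp (-(2 * r))) with h | h4
  · exact cover_sound cov3 hr h h3
  rcases lt_or_ge (((mkRat 711433 1048576 : ℚ)) : ℝ) (Real.exp (-(2 * r))) with h | h5
  · exact cover_sound cov4 hr h h4
  rcases lt_or_ge (((mkRat 704253 1048576 : ℚ)) : ℝ) (Real.exp (-(2 * r))) with h | h6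
  · exact cover_sound cov5 hr h h5
  rcases lt_or_ge (((mkRat 346769 524288 : ℚ)) : ℝ) (Real.exp (-(2 * r))) with h | h7
  · exact cover_sound cov6 hr h h6
  rcases lt_or_ge (((mkRat 676605 1048576 : ℚ)) : ℝ) (Real.exp (-(2 * r))) with h | h8
  · exact cover_sound cov7 hr h h7
  rcases lt_or_ge (((mkRat 648421 1048576 : ℚ)) : ℝ) (Real.exp (-(2 * r))) with h | h9
  · exact cover_sound cov8 hr h h8
  rcases lt_or_ge (((mkRat 598315 1048576 : ℚ)) : ℝ) (Real.exp (-(2 * r))) with h | h10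
  · exact cover_sound cov9 hr h h9
  rcases lt_or_ge (((mkRat 241111 524288 : ℚ)) : ℝ) (Real.exp (-(2 * r))) with h | h11
  · exact cover_sound cov10 hr h h10
  exact cover_sound cov11 hr (by simpa using Real.exp_pos _) h11

end Pool.Agent.Lib.MP_1e5ad7_co
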