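import Mathlib

set_option autoImplicit false

open MeasureTheory Set Real
open scoped ENNReal

namespace Pool.Agent.Lib.MP_1e5ad7_co

abbrev E3 := EuclideanSpace ℝ (Fin 3)

lemma polar_radial (H : ℝ → ℝ≥0∞) (hH : Measurable H) :
    ∫⁻ p : ℝ × ℝ, H (√(p.1 ^ 2 + p.2 ^ 2)) =
      ENNReal.ofReal (2 * π) * ∫⁻ ρ : ℝ, ENNReal.ofReal ρ * H ρ := by
  rw [← lintegral_comp_polarCoord_symm]
  have h1 : ∫⁻ p in polarCoord.target, ENNReal.ofReal p.1 •
      H (√((polarCoord.symm p).1 ^ 2 + (polarCoord.symm p).2 ^ 2)) =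
      ∫⁻ p in polarCoord.target, (ENNReal.ofReal p.1 * H p.1) * (fun _ : ℝ => (1 : ℝ≥0∞)) p.2 := by
    refine setLIntegral_congr_fun polarCoord.open_target.measurableSet ?_
    intro p hp
    have hp1 : 0 < p.1 := hp.1
    simp only [polarCoord_symm_apply, smul_eq_mul, mul_one]
    have : (p.1 * cos p.2) ^ 2 + (p.1 * sin p.2) ^ 2 = p.1 ^ 2 := by
      have := cos_sq_add_sin_sq p.2
      linear_combination p.1 ^ 2 * this
    rw [this, Real.sqrt_sq hp1.le]
  rw [h1, polarCoord_target, Measure.volume_eq_prod, ← Measure.prod_restrict,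
    lintegral_prod_mul (f := fun ρ : ℝ => ENNReal.ofReal ρ * H ρ)
      (g := fun _ : ℝ => (1 : ℝ≥0∞)) (by fun_prop) (by fun_prop)]
  have h2 : ∫⁻ ρ in Ioi (0 : ℝ), ENNReal.ofReal ρ * H ρ = ∫⁻ ρ : ℝ, ENNReal.ofReal ρ * H ρ := by
    refine setLIntegral_eq_of_support_subset ?_
    intro ρ hρ
    by_contra h
    have : ρ ≤ 0 := not_lt.mp h
    simp [ENNReal.ofReal_of_nonpos this] at hρ
  rw [h2, mul_comm]
  congr 1
  simp only [lintegral_const, one_mul, MeasurableSet.univ, Measure.restrict_apply, univ_inter,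
    Real.volume_Ioo]
  congr 1
  ring

lemma polar_half (ψ : ℝ → ℝ≥0∞) (hψ : Measurable ψ) :
    ∫⁻ p : ℝ × ℝ, ENNReal.ofReal p.2 *
        (Iio (1 : ℝ)).indicator (fun _ => (1 : ℝ≥0∞)) (√(p.1 ^ 2 + p.2 ^ 2)) *
          ψ (p.1 / √(p.1 ^ 2 + p.2 ^ 2)) =
      ENNReal.ofReal (1 / 3) * ∫⁻ φ in Ioo (-π) π, ENNReal.ofReal (sin φ) * ψ (cos φ) := by
  rw [← lintegral_comp_polarCoord_symm]
  have h1 : ∫⁻ p in polarCoord.target, ENNReal.ofReal p.1 •
      (ENNReal.ofReal (polarCoord.symm p).2 *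
        (Iio (1 : ℝ)).indicator (fun _ => (1 : ℝ≥0∞))
          (√((polarCoord.symm p).1 ^ 2 + (polarCoord.symm p).2 ^ 2)) *
          ψ ((polarCoord.symm p).1 / √((polarCoord.symm p).1 ^ 2 + (polarCoord.symm p).2 ^ 2))) =
      ∫⁻ p in polarCoord.target,
        (fun q : ℝ => (Iio (1 : ℝ)).indicator (fun q => ENNReal.ofReal (q ^ 2)) q) p.1 *
          (fun φ : ℝ => ENNReal.ofReal (sin φ) * ψ (cos φ)) p.2 := by
    refine setLIntegral_congr_fun polarCoord.open_target.measurableSet ?_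
    intro p hp
    have hp1 : 0 < p.1 := hp.1
    simp only [polarCoord_symm_apply, smul_eq_mul]
    have : (p.1 * cos p.2) ^ 2 + (p.1 * sin p.2) ^ 2 = p.1 ^ 2 := by
      have := cos_sq_add_sin_sq p.2
      linear_combination p.1 ^ 2 * this
    rw [this, Real.sqrt_sq hp1.le, mul_div_cancel_left₀ _ hp1.ne',
      ENNReal.ofReal_mul hp1.le]
    by_cases h : p.1 ∈ Iio (1 : ℝ)
    · simp only [indicator_of_mem h, sq, ENNReal.ofReal_mul hp1.le]
      ring
    · simp only [indicator_of_notMem h]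
      simp
  rw [h1, polarCoord_target, Measure.volume_eq_prod, ← Measure.prod_restrict,
    lintegral_prod_mul
      (f := fun q : ℝ => (Iio (1 : ℝ)).indicator (fun q => ENNReal.ofReal (q ^ 2)) q)
      (g := fun φ : ℝ => ENNReal.ofReal (sin φ) * ψ (cos φ))]
  · congr 1
    rw [lintegral_indicator measurableSet_Iio, Measure.restrict_restrict measurableSet_Iio]
    have : Iio (1 : ℝ) ∩ Ioi 0 = Ioo 0 1 := by
      ext x; simp [and_comm]
    rw [this, ← ofReal_integral_eq_lintegral_ofReal]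
    · rw [← integral_Ioc_eq_integral_Ioo, ← intervalIntegral.integral_of_le zero_le_one,
        integral_pow]
      norm_num
    · exact (continuous_pow 2).integrableOn_Icc.mono_set Ioo_subset_Icc_self
    · exact Filter.Eventually.of_forall fun x => sq_nonneg x
  · exact (Measurable.indicator (by fun_prop) measurableSet_Iio).aemeasurable
  · fun_prop

lemma arch_coord (ψ : ℝ → ℝ≥0∞) (hψ : Measurable ψ) :
    ∫⁻ x in Metric.ball (0 : E3) 1, ψ (x 0 / ‖x‖) =
      ENNReal.ofReal (2 * π / 3) * ∫⁻ φ in Ioo (-π) π, ENNReal.ofReal (sin φ) * ψ (cos φ) := by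
  set K : ℝ × ℝ → ℝ≥0∞ := fun p =>
    (Iio (1 : ℝ)).indicator (fun _ => (1 : ℝ≥0∞)) (√(p.1 ^ 2 + p.2 ^ 2)) *
      ψ (p.1 / √(p.1 ^ 2 + p.2 ^ 2)) with hK
  have hKm : Measurable K := by
    refine Measurable.mul ?_ (hψ.comp (by fun_prop))
    exact (Measurable.indicator measurable_const measurableSet_Iio).comp (by fun_prop)
  set G : ℝ × (ℝ × ℝ) → ℝ≥0∞ := fun p => K (p.1, √(p.2.1 ^ 2 + p.2.2 ^ 2)) with hG
  have hGm : Measurable G := hKm.comp (by fun_prop)
  have hmp : MeasurePreserving (fun x : E3 => ((x 0, (x 1, x 2)) : ℝ × (ℝ × ℝ))) volume volume := by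
    have h1 := PiLp.volume_preserving_ofLp (Fin 3)
    have h2 := volume_preserving_piFinSuccAbove (fun _ : Fin 3 => ℝ) 0
    have h3 := (MeasurePreserving.id (volume : Measure ℝ)).prod (volume_preserving_finTwoArrow ℝ)
    exact (h3.comp h2).comp h1
  have h1 : ∫⁻ x in Metric.ball (0 : E3) 1, ψ (x 0 / ‖x‖) = ∫⁻ x : E3, G (x 0, (x 1, x 2)) := by
    rw [← lintegral_indicator Metric.isOpen_ball.measurableSet]
    refine lintegral_congr fun x => ?_
    have hn : √(x 0 ^ 2 + √(x 1 ^ 2 + x 2 ^ 2) ^ 2) = ‖x‖ := by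
      rw [Real.sq_sqrt (by positivity), EuclideanSpace.norm_eq, Fin.sum_univ_three]
      simp [add_assoc]
    simp only [hG, hK, hn]
    by_cases h : ‖x‖ < 1
    · rw [indicator_of_mem (by simpa using h), indicator_of_mem (by simpa using h), one_mul]
    · rw [indicator_of_notMem (by simpa using h), indicator_of_notMem (by simpa using h), zero_mul]
  rw [h1, hmp.lintegral_comp hGm, Measure.volume_eq_prod, lintegral_prod _ hGm.aemeasurable]
  have h2 : ∀ z : ℝ, ∫⁻ p : ℝ × ℝ, G (z, p) =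
      ENNReal.ofReal (2 * π) * ∫⁻ ρ : ℝ, ENNReal.ofReal ρ * K (z, ρ) := fun z =>
    polar_radial (fun ρ => K (z, ρ)) (hKm.comp (by fun_prop))
  simp_rw [h2]
  have hm : Measurable fun p : ℝ × ℝ => ENNReal.ofReal p.2 * K p := by fun_prop
  rw [lintegral_const_mul' _ _ ENNReal.ofReal_ne_top,
    ← lintegral_prod (fun p : ℝ × ℝ => ENNReal.ofReal p.2 * K p) hm.aemeasurable,
    ← Measure.volume_eq_prod]
  have h3 := polar_half ψ hψ
  simp only [hK, ← mul_assoc]
  rw [h3, ← mul_assoc, ← ENNReal.ofReal_mul (by positivity)]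
  congr 2
  ring

lemma arch (ψ : ℝ → ℝ≥0∞) (hψ : Measurable ψ) (v : E3) (hv : ‖v‖ = 1) :
    ∫⁻ x in Metric.ball (0 : E3) 1, ψ (inner ℝ x v / ‖x‖) =
      ENNReal.ofReal (2 * π / 3) * ∫⁻ φ in Ioo (-π) π, ENNReal.ofReal (sin φ) * ψ (cos φ) := by
  rw [← arch_coord ψ hψ]
  set e : E3 := EuclideanSpace.single 0 1 with he
  have hne : ‖v‖ = ‖e‖ := by simp [he, hv]
  set R : E3 ≃ₗᵢ[ℝ] E3 := (ℝ ∙ (v - e))ᗮ.reflection with hR
  have hRv : R v = e := Submodule.reflection_sub hne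
  have hmp := R.measurePreserving
  have hpre : R ⁻¹' Metric.ball (0 : E3) 1 = Metric.ball 0 1 := by
    ext x; simp
  have hm : Measurable fun x : E3 => ψ (x 0 / ‖x‖) := hψ.comp (by fun_prop)
  rw [← hmp.setLIntegral_comp_preimage Metric.isOpen_ball.measurableSet hm, hpre]
  refine lintegral_congr fun x => ?_
  congr 2
  · rw [← R.inner_map_map x v, hRv, he]
    simp [EuclideanSpace.inner_single_right]
  · simp

end Pool.Agent.Lib.MP_1e5ad7_co
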