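import Mathlib

set_option autoImplicit false

namespace Pool.Agent.Lib.MP_1e5ad7_co

/-- a squared hinge C * max (P Z - Q - Z^2) 0 ^ 2 together with its expanded coefficients -/
structure Hg where
  P : ℕ
  Q : ℕ
  c0 : ℕ
  c1 : ℕ
  c2 : ℕ
  c3 : ℕ
  c4 : ℕ

def mkH (C P Q : ℕ) : Hg := ⟨P, Q, C * Q * Q, 2 * P * Q * C, (P * P + 2 * Q) * C, 2 * P * C, C⟩

def Hg.wf (h : Hg) : Prop :=
  h.c0 = h.c4 * h.Q * h.Q ∧ h.c1 = 2 * h.P * h.Q * h.c4 ∧ h.c2 = (h.P * h.P + 2 * h.Q) * h.c4 ∧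
    h.c3 = 2 * h.P * h.c4

lemma mkH_wf (C P Q : ℕ) : (mkH C P Q).wf := ⟨rfl, rfl, rfl, rfl⟩

noncomputable def Hg.val (h : Hg) (Z : ℝ) : ℝ := h.c4 * max (h.P * Z - h.Q - Z ^ 2) 0 ^ 2

noncomputable def pv (u0 u1 u2 u3 u4 : ℕ) (Z : ℝ) : ℝ :=
  u4 * Z ^ 4 - u3 * Z ^ 3 + u2 * Z ^ 2 - u1 * Z + u0

lemma pv_wf {h : Hg} (w : h.wf) (Z : ℝ) :
    pv h.c0 h.c1 h.c2 h.c3 h.c4 Z = h.c4 * (h.P * Z - h.Q - Z ^ 2) ^ 2 := by
  obtain ⟨w0, w1, w2, w3⟩ := w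
  rw [pv, w0, w1, w2, w3]
  push_cast
  ring

def act (a b : ℕ) (h : Hg) : Bool :=
  Nat.ble (Nat.add h.Q (Nat.mul a a)) (Nat.mul h.P a) &&
    Nat.ble (Nat.add h.Q (Nat.mul b b)) (Nat.mul h.P b)

def alive (a b : ℕ) (h : Hg) : Bool :=
  !((Nat.ble (Nat.add b b) h.P && Nat.ble (Nat.mul h.P b) (Nat.add h.Q (Nat.mul b b))) ||
    (Nat.ble h.P (Nat.add a a) && Nat.ble (Nat.mul h.P a) (Nat.add h.Q (Nat.mul a a))))

noncomputable def acc (test : Hg → Bool) (k : ℕ → ℕ → ℕ → ℕ → ℕ → Bool) (l : List Hg) :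
    ℕ → ℕ → ℕ → ℕ → ℕ → Bool :=
  List.rec (motive := fun _ => ℕ → ℕ → ℕ → ℕ → ℕ → Bool) k
    (fun h _ ih u0 u1 u2 u3 u4 => Bool.rec (ih u0 u1 u2 u3 u4)
      (ih (Nat.add u0 h.c0) (Nat.add u1 h.c1) (Nat.add u2 h.c2) (Nat.add u3 h.c3)
        (Nat.add u4 h.c4)) (test h)) l

def sh0 (a e0 e1 e2 e3 e4 : ℕ) : ℕ :=
  Nat.add e0 (Nat.mul a (Nat.add e1 (Nat.mul a (Nat.add e2 (Nat.mul a (Nat.add e3 (Nat.mul a e4)))))))
def sh1 (a e1 e2 e3 e4 : ℕ) : ℕ :=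
  Nat.add e1 (Nat.mul a (Nat.add (Nat.mul 2 e2) (Nat.mul a (Nat.add (Nat.mul 3 e3)
    (Nat.mul a (Nat.mul 4 e4))))))
def sh2 (a e2 e3 e4 : ℕ) : ℕ :=
  Nat.add e2 (Nat.mul a (Nat.add (Nat.mul 3 e3) (Nat.mul a (Nat.mul 6 e4))))
def sh3 (a e3 e4 : ℕ) : ℕ := Nat.add e3 (Nat.mul a (Nat.mul 4 e4))

def fin (a d A0 A1 A2 A3 A4 B0 B1 B2 B3 B4 : ℕ) : Bool :=
  Nat.ble (Nat.add (sh0 a B0 B1 B2 B3 B4) (Nat.mul d
    (Nat.add (Nat.sub (sh1 a B1 B2 B3 B4) (sh1 a A1 A2 A3 A4)) (Nat.mul d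
      (Nat.add (Nat.sub (sh2 a B2 B3 B4) (sh2 a A2 A3 A4)) (Nat.mul d
        (Nat.add (Nat.sub (sh3 a B3 B4) (sh3 a A3 A4)) (Nat.mul d (Nat.sub B4 A4)))))))))
    (sh0 a A0 A1 A2 A3 A4)

noncomputable def direct (pos neg : List Hg) (Tg a d : ℕ) : Bool :=
  acc (act a (Nat.add a d)) (fun u0 u1 u2 u3 u4 =>
    acc (alive a (Nat.add a d)) (fun v0 v1 v2 v3 v4 =>
      fin a d u0 v1 u2 v3 u4 v0 (Nat.add u1 Tg) v2 u3 v4) neg 0 0 0 0 0) pos 0 0 0 0 0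

def fN (n : ℕ) (k : ℕ → Bool) : Bool := Nat.casesOn (Nat.add n 1) (k 0) (fun m => k m)

lemma fN_eq (n : ℕ) (k : ℕ → Bool) : fN n k = k n := rfl

noncomputable def fL (l : List Hg) : (List Hg → Bool) → Bool :=
  List.rec (motive := fun _ => (List Hg → Bool) → Bool) (fun k => k [])
    (fun h _ ih k => fN h.P fun P => fN h.Q fun Q => fN h.c0 fun c0 => fN h.c1 fun c1 =>
      fN h.c2 fun c2 => fN h.c3 fun c3 => fN h.c4 fun c4 =>
        ih fun t => k (⟨P, Q, c0, c1, c2, c3, c4⟩ :: t)) l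

lemma fL_eq (l : List Hg) : ∀ k : List Hg → Bool, fL l k = k l := by
  induction l with
  | nil => intro k; rfl
  | cons h l ih => intro k; exact ih fun t => k (h :: t)

noncomputable def chk (pos neg : List Hg) (Tg : ℕ) (fuel : ℕ) : ℕ → ℕ → Bool :=
  Nat.rec (motive := fun _ => ℕ → ℕ → Bool) (fun a d => direct pos neg Tg a d)
    (fun _ ih a d => direct pos neg Tg a d ||
      fN (Nat.div d 2) fun e => fN (Nat.add a e) fun m => fN (Nat.sub d e) fun e' =>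
        ih a e && ih m e') fuel

lemma chk_succ (pos neg : List Hg) (Tg n a d : ℕ) : chk pos neg Tg (n + 1) a d =
    (direct pos neg Tg a d ||
      fN (Nat.div d 2) fun e => fN (Nat.add a e) fun m => fN (Nat.sub d e) fun e' =>
        chk pos neg Tg n a e && chk pos neg Tg n m e') := rfl

lemma acc_sound (test : Hg → Bool) (k : ℕ → ℕ → ℕ → ℕ → ℕ → Bool) (Z : ℝ) (l : List Hg) :
    ∀ u0 u1 u2 u3 u4 : ℕ, acc test k l u0 u1 u2 u3 u4 = true →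
      ∃ v0 v1 v2 v3 v4 : ℕ, k v0 v1 v2 v3 v4 = true ∧ pv v0 v1 v2 v3 v4 Z = pv u0 u1 u2 u3 u4 Z +
        (l.map fun h => if test h = true then pv h.c0 h.c1 h.c2 h.c3 h.c4 Z else 0).sum := by
  induction l with
  | nil => exact fun u0 u1 u2 u3 u4 h => ⟨u0, u1, u2, u3, u4, h, by simp⟩
  | cons h l ih =>
    intro u0 u1 u2 u3 u4 H
    cases ht : test h with
    | false =>
      have H' : acc test k l u0 u1 u2 u3 u4 = true := by
        simpa only [acc, ht] using H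
      obtain ⟨v0, v1, v2, v3, v4, h1, h2⟩ := ih _ _ _ _ _ H'
      refine ⟨v0, v1, v2, v3, v4, h1, ?_⟩
      simp [h2, ht]
    | true =>
      have H' : acc test k l (u0 + h.c0) (u1 + h.c1) (u2 + h.c2) (u3 + h.c3) (u4 + h.c4) = true := by
        simp only [acc, ht] at H
        exact H
      obtain ⟨v0, v1, v2, v3, v4, h1, h2⟩ := ih _ _ _ _ _ H'
      refine ⟨v0, v1, v2, v3, v4, h1, ?_⟩
      rw [h2]
      simp only [List.map_cons, List.sum_cons, ht, if_true, pv]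
      push_cast
      ring

lemma cast_sub_ge (x y : ℕ) : (x : ℝ) - y ≤ ((x - y : ℕ) : ℝ) := by
  rcases le_total y x with h | h
  · rw [Nat.cast_sub h]
  · have : (x : ℝ) ≤ y := by exact_mod_cast h
    have : (0 : ℝ) ≤ ((x - y : ℕ) : ℝ) := Nat.cast_nonneg _
    linarith

lemma fin_sound {a d A0 A1 A2 A3 A4 B0 B1 B2 B3 B4 : ℕ}
    (h : fin a d A0 A1 A2 A3 A4 B0 B1 B2 B3 B4 = true) {Z : ℝ} (h1 : a ≤ Z) (h2 : Z ≤ a + d) :
    (B0 : ℝ) + B1 * Z + B2 * Z ^ 2 + B3 * Z ^ 3 + B4 * Z ^ 4 ≤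
      A0 + A1 * Z + A2 * Z ^ 2 + A3 * Z ^ 3 + A4 * Z ^ 4 := by
  obtain ⟨τ, rfl⟩ : ∃ τ, Z = a + τ := ⟨Z - a, by ring⟩
  have hτ0 : 0 ≤ τ := by linarith
  have hτ1 : τ ≤ d := by linarith
  rw [fin, Nat.ble_eq] at h
  simp only [Nat.add_eq, Nat.mul_eq, Nat.sub_eq] at h
  have h' := (Nat.cast_le (α := ℝ)).mpr h
  simp only [Nat.cast_add, Nat.cast_mul] at h'
  have e1 := cast_sub_ge (sh1 a B1 B2 B3 B4) (sh1 a A1 A2 A3 A4)
  have e2 := cast_sub_ge (sh2 a B2 B3 B4) (sh2 a A2 A3 A4)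
  have e3 := cast_sub_ge (sh3 a B3 B4) (sh3 a A3 A4)
  have e4 := cast_sub_ge B4 A4
  generalize sh1 a B1 B2 B3 B4 - sh1 a A1 A2 A3 A4 = n1 at h' e1
  generalize sh2 a B2 B3 B4 - sh2 a A2 A3 A4 = n2 at h' e2
  generalize sh3 a B3 B4 - sh3 a A3 A4 = n3 at h' e3
  generalize B4 - A4 = n4 at h' e4
  have key : ∀ (k : ℕ) (n : ℕ) (x : ℝ), x ≤ n → x * τ ^ k ≤ n * (d : ℝ) ^ k := by
    intro k n x hx
    exact (mul_le_mul_of_nonneg_right hx (by positivity)).trans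
      (mul_le_mul_of_nonneg_left (pow_le_pow_left₀ hτ0 hτ1 k) (Nat.cast_nonneg _))
  have k1 := key 1 _ _ e1
  have k2 := key 2 _ _ e2
  have k3 := key 3 _ _ e3
  have k4 := key 4 _ _ e4
  simp only [sh0, sh1, sh2, sh3, Nat.add_eq, Nat.mul_eq, Nat.cast_add, Nat.cast_mul,
    Nat.cast_ofNat] at h' k1 k2 k3 k4
  linarith

lemma act_sound {a b : ℕ} {h : Hg} (w : h.wf) {Z : ℝ} (h1 : a ≤ Z) (h2 : Z ≤ b) :
    (if act a b h = true then pv h.c0 h.c1 h.c2 h.c3 h.c4 Z else 0) ≤ h.val Z := by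
  split_ifs with H
  · rw [pv_wf w, Hg.val]
    simp only [act, Bool.and_eq_true, Nat.ble_eq, Nat.add_eq, Nat.mul_eq] at H
    have ha := (Nat.cast_le (α := ℝ)).mpr H.1
    have hb := (Nat.cast_le (α := ℝ)).mpr H.2
    push_cast at ha hb
    rw [max_eq_left]
    rcases eq_or_lt_of_le (h1.trans h2) with hab | hab
    · have : Z = a := le_antisymm (hab ▸ h2) h1
      rw [this]; linarith
    · by_contra hneg
      push Not at hneg
      have e : ((b : ℝ) - a) * (h.P * Z - h.Q - Z ^ 2) =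
          (b - Z) * (h.P * a - h.Q - a * a) + (Z - a) * (h.P * b - h.Q - b * b) +
            (b - a) * ((Z - a) * (b - Z)) := by ring
      have t1 := mul_nonneg (sub_nonneg.mpr h2) (by linarith : (0 : ℝ) ≤ h.P * a - h.Q - a * a)
      have t2 := mul_nonneg (sub_nonneg.mpr h1) (by linarith : (0 : ℝ) ≤ h.P * b - h.Q - b * b)
      have t3 := mul_nonneg (sub_nonneg.mpr hab.le)
        (mul_nonneg (sub_nonneg.mpr h1) (sub_nonneg.mpr h2))
      have t4 := mul_neg_of_pos_of_neg (sub_pos.mpr hab) hneg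
      linarith
  · rw [Hg.val]; positivity

lemma alive_sound {a b : ℕ} {h : Hg} (w : h.wf) {Z : ℝ} (h1 : a ≤ Z) (h2 : Z ≤ b) :
    h.val Z ≤ (if alive a b h = true then pv h.c0 h.c1 h.c2 h.c3 h.c4 Z else 0) := by
  split_ifs with H
  · rw [pv_wf w, Hg.val]
    refine mul_le_mul_of_nonneg_left ?_ (Nat.cast_nonneg _)
    rcases le_total (h.P * Z - h.Q - Z ^ 2) 0 with h3 | h3
    · rw [max_eq_right h3]; simp; positivity
    · rw [max_eq_left h3]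
  · simp only [alive, Bool.not_eq_true', Bool.not_eq_false, Bool.or_eq_true, Bool.and_eq_true,
      Nat.ble_eq, Nat.add_eq, Nat.mul_eq] at H
    rw [Hg.val, max_eq_right]
    · simp
    rcases H with H | H
    · have ha := (Nat.cast_le (α := ℝ)).mpr H.1
      have hb := (Nat.cast_le (α := ℝ)).mpr H.2
      push_cast at ha hb
      nlinarith [mul_nonneg (sub_nonneg.mpr h2) (by linarith : (0 : ℝ) ≤ h.P - b - Z)]
    · have ha := (Nat.cast_le (α := ℝ)).mpr H.1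
      have hb := (Nat.cast_le (α := ℝ)).mpr H.2
      push_cast at ha hb
      nlinarith [mul_nonneg (sub_nonneg.mpr h1) (by linarith : (0 : ℝ) ≤ Z + a - h.P)]

lemma direct_sound {pos neg : List Hg} (wp : ∀ h ∈ pos, h.wf) (wn : ∀ h ∈ neg, h.wf) {Tg a d : ℕ}
    (H : direct pos neg Tg a d = true) {Z : ℝ} (h1 : a ≤ Z) (h2 : Z ≤ a + d) :
    Tg * Z + (neg.map fun h => h.val Z).sum ≤ (pos.map fun h => h.val Z).sum := by
  have h2' : Z ≤ ((Nat.add a d : ℕ) : ℝ) := by simpa using h2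
  obtain ⟨u0, u1, u2, u3, u4, H1, e1⟩ := acc_sound _ _ Z pos _ _ _ _ _ H
  obtain ⟨v0, v1, v2, v3, v4, H2, e2⟩ := acc_sound _ _ Z neg _ _ _ _ _ H1
  have h3 := fin_sound H2 h1 h2
  have h4 : (pos.map fun h => if act a (Nat.add a d) h = true then
      pv h.c0 h.c1 h.c2 h.c3 h.c4 Z else 0).sum ≤ (pos.map fun h => h.val Z).sum :=
    List.sum_le_sum fun h hh => act_sound (wp h hh) h1 h2'
  have h5 : (neg.map fun h => h.val Z).sum ≤ (neg.map fun h => if alive a (Nat.add a d) h = true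
      then pv h.c0 h.c1 h.c2 h.c3 h.c4 Z else 0).sum :=
    List.sum_le_sum fun h hh => alive_sound (wn h hh) h1 h2'
  have z0 : pv 0 0 0 0 0 Z = 0 := by simp [pv]
  rw [z0, zero_add] at e1 e2
  rw [← e1] at h4
  rw [← e2] at h5
  simp only [pv, Nat.add_eq, Nat.cast_add] at h3 h4 h5
  linarith

lemma chk_sound {pos neg : List Hg} (wp : ∀ h ∈ pos, h.wf) (wn : ∀ h ∈ neg, h.wf) {Tg : ℕ}
    (fuel : ℕ) : ∀ {a d : ℕ}, chk pos neg Tg fuel a d = true → ∀ {Z : ℝ}, a ≤ Z → Z ≤ a + d →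
    Tg * Z + (neg.map fun h => h.val Z).sum ≤ (pos.map fun h => h.val Z).sum := by
  induction fuel with
  | zero => exact fun H Z h1 h2 => direct_sound wp wn H h1 h2
  | succ n ih =>
    intro a d H Z h1 h2
    have H' : (direct pos neg Tg a d || (chk pos neg Tg n a (d / 2) &&
        chk pos neg Tg n (a + d / 2) (d - d / 2))) = true := by
      rw [chk_succ, fN_eq, fN_eq, fN_eq] at H
      exact H
    rw [Bool.or_eq_true, Bool.and_eq_true] at H'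
    rcases H' with H' | ⟨Ha, Hb⟩
    · exact direct_sound wp wn H' h1 h2
    rcases le_total Z (a + (d / 2 : ℕ)) with h3 | h3
    · exact ih Ha h1 h3
    · refine ih Hb (by simpa using h3) ?_
      rw [Nat.cast_sub (Nat.div_le_self _ _), Nat.cast_add]
      linarith

end Pool.Agent.Lib.MP_1e5ad7_co
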