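import Pool.Agent.Lib.MP_1e5ad7_co.Density
import Pool.Agent.Lib.MP_1e5ad7_co.Poly

set_option autoImplicit false

namespace Pool.Agent.Lib.MP_1e5ad7_co

structure Cert where
  s : ℚ
  β : ℚ
  κ₁ : ℚ
  σ₁ : ℚ
  κ₂ : ℚ
  σ₂ : ℚ
  σ₃ : ℚ
  P : List (ℚ × ℚ)
  L : List (ℚ × ℚ)
  q : ℚ
  z₁ : ℚ
  xl : ℚ
  xh : ℚ

abbrev Tr := ℚ × ℚ × ℚ

noncomputable def Tr.val (h : Tr) (z : ℝ) : ℝ := h.1 * max (h.2.1 * z - h.2.2 - z ^ 2) 0 ^ 2

def toN (x : ℚ) : ℕ := x.num.toNat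

def isN (x : ℚ) : Bool := decide ((toN x : ℚ) = x)

lemma isN_cast {x : ℚ} (h : isN x = true) : (toN x : ℝ) = x := by
  have h' : (toN x : ℚ) = x := of_decide_eq_true h
  rw [← h']
  simp only [Rat.cast_natCast]
  rw [h']

def toH (D E : ℕ) (h : Tr) : Hg := mkH (toN (h.1 * E)) (toN (h.2.1 * D)) (toN (h.2.2 * D ^ 2))

def exact (D E : ℕ) (h : Tr) : Bool := isN (h.1 * E) && isN (h.2.1 * D) && isN (h.2.2 * D ^ 2)

lemma toH_val {D E : ℕ} {h : Tr} (H : exact D E h = true) (z : ℝ) :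
    (toH D E h).val (D * z) = E * D ^ 4 * h.val z := by
  simp only [exact, Bool.and_eq_true] at H
  obtain ⟨⟨h1, h2⟩, h3⟩ := H
  simp only [Hg.val, toH, mkH, isN_cast h1, isN_cast h2, isN_cast h3, Tr.val]
  push_cast
  have e : (h.2.1 : ℝ) * D * (D * z) - h.2.2 * D ^ 2 - (D * z) ^ 2 =
      (D : ℝ) ^ 2 * (h.2.1 * z - h.2.2 - z ^ 2) := by ring
  have e2 : max ((D : ℝ) ^ 2 * (h.2.1 * z - h.2.2 - z ^ 2)) 0 =
      (D : ℝ) ^ 2 * max (h.2.1 * z - h.2.2 - z ^ 2) 0 := by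
    rw [mul_max_of_nonneg _ _ (by positivity), mul_zero]
  rw [e, e2]
  ring

lemma toH_sum {D E : ℕ} {l : List Tr} (H : l.all (exact D E) = true) (z : ℝ) :
    ((l.map (toH D E)).map fun h => h.val (D * z)).sum = E * D ^ 4 * (l.map fun h => h.val z).sum := by
  induction l with
  | nil => simp
  | cons h l ih =>
    rw [List.all_cons, Bool.and_eq_true] at H
    simp only [List.map_cons, List.sum_cons, toH_val H.1, ih H.2]
    ring

def bigD : ℕ := 2 ^ 56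

def denE (l : List Tr) : ℕ := l.foldr (fun h e => Nat.lcm h.1.den e) 1

noncomputable def rangeOK (pos neg : List Tr) (z₀ z₁ : ℚ) : Bool :=
  fN (denE (pos ++ neg)) fun E => fN bigD fun D =>
    Nat.ble 1 E && pos.all (exact D E) && neg.all (exact D E) && isN (z₀ * D) &&
      isN ((z₁ - z₀) * D) &&
      fL (pos.map (toH D E)) fun pH => fL (neg.map (toH D E)) fun nH =>
        fN (E * D ^ 3) fun Tg => fN (toN (z₀ * D)) fun a => fN (toN ((z₁ - z₀) * D)) fun d =>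
          chk pH nH Tg 16 a d

lemma rangeOK_sound {pos neg : List Tr} {z₀ z₁ : ℚ} (H : rangeOK pos neg z₀ z₁ = true) {z : ℝ}
    (h0 : z₀ ≤ z) (h1 : z ≤ z₁) :
    z + (neg.map fun h => h.val z).sum ≤ (pos.map fun h => h.val z).sum := by
  simp only [rangeOK, fN_eq, fL_eq, Bool.and_eq_true, Nat.ble_eq] at H
  obtain ⟨⟨⟨⟨⟨hE, hp⟩, hn⟩, ha⟩, hd⟩, hc⟩ := H
  generalize denE (pos ++ neg) = E at hE hp hn hc
  have hD : (0 : ℝ) < bigD := by unfold bigD; positivity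
  have hE' : (0 : ℝ) < E := by exact_mod_cast hE
  have wf : ∀ l : List Tr, ∀ h ∈ l.map (toH bigD E), h.wf := by
    intro l h hh
    obtain ⟨x, -, rfl⟩ := List.mem_map.mp hh
    exact mkH_wf _ _ _
  have key := chk_sound (wf pos) (wf neg) 16 hc (Z := bigD * z)
    (by rw [isN_cast ha]; push_cast; nlinarith)
    (by rw [isN_cast ha, isN_cast hd]; push_cast; nlinarith)
  rw [toH_sum hp, toH_sum hn] at key
  push_cast at key
  have hpos : (0 : ℝ) < E * bigD ^ 4 := by positivity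
  refine le_of_mul_le_mul_left ?_ hpos
  linarith

namespace Cert

noncomputable def G (c : Cert) : Gg := ⟨c.s, c.β, c.κ₁, c.σ₁, c.κ₂, c.σ₂, c.σ₃⟩

def posH (c : Cert) (S : List (ℚ × ℚ)) : List Tr :=
  S.flatMap fun p => [(c.β * p.2 / (8 * p.1), 2 * c.s * p.1, p.1 ^ 2),
    (c.κ₁ * p.2 / (8 * p.1), 2 * c.σ₁ * p.1, p.1 ^ 2),
    (c.κ₂ * p.2 / (8 * p.1), 2 * c.σ₂ * p.1, p.1 ^ 2)]

def negH (c : Cert) (S : List (ℚ × ℚ)) : List Tr :=
  S.map fun p => ((c.β + c.κ₁ + c.κ₂) * p.2 / (8 * p.1), 2 * c.σ₃ * p.1, p.1 ^ 2)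

def castL (S : List (ℚ × ℚ)) : List (ℝ × ℝ) := S.map fun p => ((p.1 : ℝ), (p.2 : ℝ))

def sc (q : ℚ) (S : List (ℚ × ℚ)) : List (ℚ × ℚ) := S.map fun p => (p.1 * q, p.2 / q ^ 2)

def posL (S : List (ℚ × ℚ)) : Bool := S.all fun p => decide (0 < p.1) && decide (0 ≤ p.2)

lemma posL_cast {S : List (ℚ × ℚ)} (h : posL S = true) : ∀ p ∈ castL S, 0 < p.1 ∧ 0 ≤ p.2 := by
  intro p hp
  obtain ⟨r, hr, rfl⟩ := List.mem_map.mp hp
  have := List.all_eq_true.mp h r hr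
  simp only [Bool.and_eq_true, decide_eq_true_eq] at this
  exact ⟨Rat.cast_pos.mpr this.1, Rat.cast_nonneg.mpr this.2⟩

lemma T_append (G : Gg) (A B : List (ℝ × ℝ)) (z : ℝ) : T G (A ++ B) z = T G A z + T G B z := by
  simp [T]

lemma castL_append (A B : List (ℚ × ℚ)) : castL (A ++ B) = castL A ++ castL B := by
  simp [castL]

lemma T_sc (G : Gg) {q : ℚ} (hq : 0 < q) (S : List (ℚ × ℚ)) (z : ℝ) :
    T G (castL (sc q S)) z = T G (castL S) (z / q) := by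
  have hq' : (q : ℝ) ≠ 0 := by exact_mod_cast hq.ne'
  simp only [T, castL, sc, List.map_map]
  congr 1
  refine List.map_congr_left fun p _ => ?_
  simp only [Function.comp]
  push_cast
  have : (p.1 : ℝ) * q / z + z / (p.1 * q) = p.1 / (z / q) + z / q / p.1 := by
    rw [div_div_eq_mul_div, div_div, mul_comm (q : ℝ)]
  rw [this]
  field_simp

lemma hinge {y z σ : ℝ} (hy : 0 < y) (hz : 0 < z) :
    max (σ - (y / z + z / y) / 2) 0 = max (2 * σ * y * z - y ^ 2 - z ^ 2) 0 / (2 * y * z) := by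
  rw [← max_div_div_right (by positivity), zero_div]
  congr 1
  field_simp
  ring

lemma T_eq (c : Cert) {S : List (ℚ × ℚ)} (hS : posL S = true) {z : ℝ} (hz : 0 < z) :
    z * T c.G (castL S) z =
      ((c.posH S).map fun h => h.val z).sum - ((c.negH S).map fun h => h.val z).sum := by
  induction S with
  | nil => simp [T, castL, posH, negH]
  | cons p S ih =>
    rw [posL, List.all_cons, Bool.and_eq_true, Bool.and_eq_true, decide_eq_true_eq] at hS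
    have ih' := ih hS.2
    have hy : (0 : ℝ) < p.1 := by exact_mod_cast hS.1.1
    simp only [T, castL, posH, negH, List.map_cons, List.sum_cons, List.flatMap_cons,
      List.map_append, List.sum_append, List.map_nil, List.sum_nil] at ih' ⊢
    rw [mul_add, ih']
    generalize (List.map (fun h : Tr => h.val z) (List.flatMap _ S)).sum = u
    generalize (List.map (fun h : Tr => h.val z) (List.map _ S)).sum = v
    simp only [Gg.F, G, hinge hy hz, Tr.val]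
    push_cast
    field_simp
    ring

lemma one_le_T (c : Cert) {S : List (ℚ × ℚ)} (hS : posL S = true) {z₀ z₁ : ℚ}
    (H : rangeOK (c.posH S) (c.negH S) z₀ z₁ = true) {z : ℝ} (hz : 0 < z) (h0 : z₀ ≤ z)
    (h1 : z ≤ z₁) : 1 ≤ T c.G (castL S) z := by
  have h2 := rangeOK_sound H h0 h1
  have h3 := c.T_eq hS hz
  refine le_of_mul_le_mul_left ?_ hz
  linarith

def line (c : Cert) (α b : ℚ) : Bool :=
  decide (0 ≤ 2 * c.s ^ 2 * b * c.β - (c.s ^ 2 - 1) * c.β ^ 2 - 2 * (α - 1) * c.β * c.s) &&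
  decide ((α - 1) ^ 2 - b ^ 2 ≤
    2 * c.s ^ 2 * b * c.β - (c.s ^ 2 - 1) * c.β ^ 2 - 2 * (α - 1) * c.β * c.s)

lemma line_sound (c : Cert) {α b : ℚ} (h : c.line α b = true) : c.G.Line α b := by
  simp only [line, Bool.and_eq_true, decide_eq_true_eq] at h
  simp only [Gg.Line, G]
  exact ⟨by exact_mod_cast h.1, by exact_mod_cast h.2⟩

def valid (c : Cert) : Bool :=
  decide (1 < c.s) && decide (0 ≤ c.β) && decide (0 ≤ c.κ₁) && decide (0 ≤ c.κ₂) &&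
  decide (c.σ₃ ≤ c.σ₂) && decide (c.σ₂ ≤ c.σ₁) && decide (c.σ₁ ≤ c.s) &&
  decide (2 * c.σ₁ ^ 2 ≤ c.s ^ 2 + 1) &&
  decide (c.β * (c.s - c.σ₃) + c.κ₁ * (c.σ₁ - c.σ₃) + c.κ₂ * (c.σ₂ - c.σ₃) ≤ 1) &&
  c.line (c.β * c.s) c.β && c.line (c.β * c.s + c.κ₁ * c.σ₁) (c.β + c.κ₁) &&
  c.line (c.β * c.s + c.κ₁ * c.σ₁ + c.κ₂ * c.σ₂) (c.β + c.κ₁ + c.κ₂)

lemma valid_sound (c : Cert) (h : c.valid = true) : c.G.Valid := by
  simp only [valid, Bool.and_eq_true, decide_eq_true_eq] at h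
  obtain ⟨⟨⟨⟨⟨⟨⟨⟨⟨⟨⟨h1, h2⟩, h3⟩, h4⟩, h5⟩, h6⟩, h7⟩, h8⟩, h9⟩, h10⟩, h11⟩, h12⟩ := h
  have l0 := c.line_sound h10
  have l1 := c.line_sound h11
  have l2 := c.line_sound h12
  push_cast at l0 l1 l2
  refine ⟨?_, ?_, ?_, ?_, ?_, ?_, ?_, ?_, ?_, l0, l1, l2⟩ <;> simp only [G] <;> assumption_mod_cast

def wt (S : List (ℚ × ℚ)) : ℚ := (S.map Prod.snd).sum

lemma wt_cast (S : List (ℚ × ℚ)) : Wt (castL S) = (wt S : ℝ) := by
  induction S with
  | nil => simp [Wt, castL, wt]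
  | cons p S ih =>
    simp only [Wt, castL, wt, List.map_cons, List.sum_cons] at ih ⊢
    rw [ih]
    push_cast
    rfl

def ub (x : ℚ) : ℚ :=
  (1 - x ^ 2) / 2 -
    x * ∑ k ∈ Finset.range 12, 2 * (1 / (2 * k + 1)) * ((1 - x) / (1 + x)) ^ (2 * k + 1)

lemma ub_cast (x : ℚ) : Ub x = (ub x : ℝ) := by
  simp only [Ub, ub]
  push_cast
  rfl

def Ω (c : Cert) : ℚ := wt c.P + wt c.L * (c.q ^ 2 / (c.q ^ 2 - 1))

def L3 (c : Cert) : List (ℚ × ℚ) := c.L ++ sc c.q c.L ++ sc c.q (sc c.q c.L)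

noncomputable def ok (c : Cert) : Bool :=
  c.valid && posL c.P && posL c.L && posL c.L3 && posL (c.P ++ c.L3) && decide (1 < c.q) &&
    decide (1 ≤ c.z₁) && decide (0 ≤ c.xl) && decide (c.xh ≤ 1) &&
    decide (2 * c.s ^ 2 * c.xh ≤ 1 + c.xh ^ 2) && decide (c.Ω * ub c.xl ≤ 74048 / 100000) &&
    rangeOK (c.posH (c.P ++ c.L3)) (c.negH (c.P ++ c.L3)) 1 c.z₁ &&
    rangeOK (c.posH c.L3) (c.negH c.L3) c.z₁ (c.q * c.z₁)

theorem sound (c : Cert) (h : c.ok = true) {r : ℝ} (hr : 0 < r)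
    (h1 : c.xl ≤ Real.exp (-(2 * r))) (h2 : Real.exp (-(2 * r)) ≤ c.xh) : Stmt r := by
  simp only [ok, Bool.and_eq_true, decide_eq_true_eq] at h
  obtain ⟨⟨⟨⟨⟨⟨⟨⟨⟨⟨⟨⟨hv, hP⟩, hL⟩, hL3⟩, hPL⟩, hq⟩, hz⟩, hxl⟩, hxh⟩, hs⟩, hU⟩, hA⟩, hB⟩ := h
  have hq0 : 0 < c.q := by linarith
  have hz' : (1 : ℝ) ≤ c.z₁ := by exact_mod_cast hz
  have e3 : ∀ z : ℝ, T c.G (castL c.L3) z = T c.G (castL c.L) z + T c.G (castL c.L) (z / c.q) +
      T c.G (castL c.L) (z / c.q ^ 2) := by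
    intro z
    rw [L3, castL_append, castL_append, T_append, T_append, T_sc _ hq0, T_sc _ hq0, T_sc _ hq0,
      div_div, sq]
  have hg : Good c.G (castL c.P) (castL c.L) c.q c.z₁ c.Ω := by
    refine ⟨c.valid_sound hv, posL_cast hP, posL_cast hL, by exact_mod_cast hq, hz', ?_, ?_, ?_⟩
    · intro z hz0 hz1
      rw [← e3, ← T_append, ← castL_append]
      exact c.one_le_T hPL hA (by linarith) (by simpa using hz0) hz1
    · intro z hz0 hz1
      rw [← e3]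
      exact c.one_le_T hL3 hB (by linarith) hz0 (by simpa using hz1)
    · rw [wt_cast, wt_cast, Ω]
      push_cast
      exact le_rfl
  refine stmt_of_range hg (xl := c.xl) (xh := c.xh) (by exact_mod_cast hxl)
    (by exact_mod_cast hxh) ?_ ?_ hr h1 h2
  · simp only [G]
    exact_mod_cast hs
  · rw [ub_cast]
    have := (Rat.cast_le (K := ℝ)).mpr hU
    push_cast at this
    exact this

end Cert

noncomputable def cover : List Cert → ℚ → ℚ → Bool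
  | [], hi, lo => decide (hi ≤ lo)
  | c :: cs, hi, lo => decide (hi ≤ c.xh) && c.ok && cover cs c.xl lo

theorem cover_sound {cs : List Cert} : ∀ {hi lo : ℚ}, cover cs hi lo = true → ∀ {r : ℝ}, 0 < r →
    lo < Real.exp (-(2 * r)) → Real.exp (-(2 * r)) ≤ hi → Stmt r := by
  induction cs with
  | nil =>
    intro hi lo h r _ h1 h2
    have : (hi : ℝ) ≤ lo := by exact_mod_cast of_decide_eq_true h
    linarith
  | cons c cs ih =>
    intro hi lo h r hr h1 h2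
    simp only [cover, Bool.and_eq_true, decide_eq_true_eq] at h
    have h3 : (hi : ℝ) ≤ c.xh := by exact_mod_cast h.1.1
    rcases le_total (c.xl : ℝ) (Real.exp (-(2 * r))) with h4 | h4
    · exact c.sound h.1.2 hr h4 (h2.trans h3)
    · exact ih h.2 hr h1 h4

end Pool.Agent.Lib.MP_1e5ad7_co
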