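import Pool.Agent.Lib.MP_1e5ad7_co.Slice

set_option autoImplicit false

open Set Real

namespace Pool.Agent.Lib.MP_1e5ad7_co

noncomputable def T (G : Gg) (L : List (ℝ × ℝ)) (z : ℝ) : ℝ :=
  (L.map fun p => p.2 * p.1 * z * G.F ((p.1 / z + z / p.1) / 2)).sum

noncomputable def Wt (L : List (ℝ × ℝ)) : ℝ := (L.map Prod.snd).sum

lemma T_nonneg {G : Gg} (hG : G.Valid) {L : List (ℝ × ℝ)} (hL : ∀ p ∈ L, 0 < p.1 ∧ 0 ≤ p.2)
    {z : ℝ} (hz : 0 ≤ z) : 0 ≤ T G L z := by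
  refine List.sum_nonneg ?_
  intro a ha
  obtain ⟨p, hp, rfl⟩ := List.mem_map.mp ha
  have := hL p hp
  exact mul_nonneg (mul_nonneg (mul_nonneg this.2 this.1.le) hz) (Gg.F_nonneg hG _)

lemma Wt_nonneg {L : List (ℝ × ℝ)} (hL : ∀ p ∈ L, 0 < p.1 ∧ 0 ≤ p.2) : 0 ≤ Wt L := by
  refine List.sum_nonneg ?_
  intro a ha
  obtain ⟨p, hp, rfl⟩ := List.mem_map.mp ha
  exact (hL p hp).2

lemma slice_list {G : Gg} (hG : G.Valid) {ι : Type} [Fintype ι] (t : ι → ℝ) (x : ι → E3)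
    (h0 : ∀ i, 0 ≤ t i) (ht : ∀ i, t i ^ 2 = 1 + ‖x i‖ ^ 2)
    (hsep : ∀ i j, i ≠ j → G.s ^ 2 ≤ t i * t j - inner ℝ (x i) (x j))
    {Y : ℝ} (hY : 0 < Y) (L : List (ℝ × ℝ)) (hL : ∀ p ∈ L, 0 < p.1 ∧ 0 ≤ p.2)
    (hLY : ∀ p ∈ L, 2 * G.s * p.1 ≤ Y) :
    ∑ i, T G L (Y / (t i + ‖x i‖)) ≤ Wt L * Y ^ 2 / 2 := by
  induction L with
  | nil => simp [T, Wt]
  | cons p L ih =>
    have ih' := ih (fun q hq => hL q (List.mem_cons_of_mem _ hq))
      (fun q hq => hLY q (List.mem_cons_of_mem _ hq))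
    obtain ⟨hy, hw⟩ := hL p List.mem_cons_self
    have hη : 2 * G.s ≤ Y / p.1 := by
      rw [le_div_iff₀ hy]; exact hLY p List.mem_cons_self
    have h1 := slice hG t x h0 ht hsep hη
    have h2 := mul_le_mul_of_nonneg_left h1 (by positivity : 0 ≤ p.2 * Y ^ 2 / 2)
    rw [Finset.mul_sum] at h2
    have h3 : ∀ i, T G (p :: L) (Y / (t i + ‖x i‖)) = p.2 * Y ^ 2 / 2 *
        (2 / (Y / p.1 * (t i + ‖x i‖)) *
          G.F ((Y / p.1 / (t i + ‖x i‖) + (t i + ‖x i‖) / (Y / p.1)) / 2)) +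
        T G L (Y / (t i + ‖x i‖)) := by
      intro i
      have hb : 0 < t i + ‖x i‖ := by
        have := one_le_of_hyp (h0 i) (ht i)
        positivity
      simp only [T, List.map_cons, List.sum_cons]
      congr 1
      have : p.1 / (Y / (t i + ‖x i‖)) + Y / (t i + ‖x i‖) / p.1 =
          Y / p.1 / (t i + ‖x i‖) + (t i + ‖x i‖) / (Y / p.1) := by
        field_simp
        ring
      rw [this]
      field_simp
    simp only [h3, Finset.sum_add_distrib]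
    simp only [Wt, List.map_cons, List.sum_cons] at ih' ⊢
    linarith

lemma bounded_count (K : ℝ) {ε : ℝ} (hε : 0 < ε) : ∃ M : ℕ, ∀ (ι : Type) (S : Finset ι)
    (x : ι → E3), (∀ i ∈ S, ‖x i‖ ≤ K) → (∀ i ∈ S, ∀ j ∈ S, i ≠ j → ε ≤ ‖x i - x j‖) →
    S.card ≤ M := by
  classical
  have htb : TotallyBounded (Metric.closedBall (0 : E3) K) :=
    (isCompact_closedBall (0 : E3) K).totallyBounded
  obtain ⟨N, hN, hcov⟩ := Metric.totallyBounded_iff.mp htb (ε / 2) (by positivity)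
  refine ⟨hN.toFinset.card, fun ι S x hK hsep => ?_⟩
  have : ∀ i, i ∈ S → ∃ y ∈ N, x i ∈ Metric.ball y (ε / 2) := by
    intro i hi
    have := hcov (mem_closedBall_zero_iff.mpr (hK i hi))
    simpa using this
  choose! f hf using this
  refine Finset.card_le_card_of_injOn f (fun i hi => ?_) (fun i hi j hj hij => ?_)
  · simpa using (hf i hi).1
  · by_contra hne
    have h1 := hsep i hi j hj hne
    have h2 := (hf i hi).2
    have h3 := (hf j hj).2
    rw [← hij] at h3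
    have := dist_triangle_right (x i) (x j) (f i)
    rw [Metric.mem_ball] at h2 h3
    rw [dist_eq_norm] at this
    linarith

structure Good (G : Gg) (P L : List (ℝ × ℝ)) (q z₁ Ω : ℝ) : Prop where
  hG : G.Valid
  hP : ∀ p ∈ P, 0 < p.1 ∧ 0 ≤ p.2
  hL : ∀ p ∈ L, 0 < p.1 ∧ 0 ≤ p.2
  hq : 1 < q
  hz : 1 ≤ z₁
  hA : ∀ z, 1 ≤ z → z ≤ z₁ → 1 ≤ T G P z + (T G L z + T G L (z / q) + T G L (z / q ^ 2))
  hB : ∀ z, z₁ ≤ z → z ≤ q * z₁ → 1 ≤ T G L z + T G L (z / q) + T G L (z / q ^ 2)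
  hΩ : Wt P + Wt L * (q ^ 2 / (q ^ 2 - 1)) ≤ Ω

lemma geom_le {q : ℝ} (hq : 1 < q) (n : ℕ) :
    ∑ k ∈ Finset.range n, 1 / (q ^ k) ^ 2 ≤ q ^ 2 / (q ^ 2 - 1) := by
  have h1 : 1 < q ^ 2 := one_lt_pow₀ hq two_ne_zero
  have h0 : 0 < q := by linarith
  have : ∑ k ∈ Finset.range n, 1 / (q ^ k) ^ 2 =
      q ^ 2 / (q ^ 2 - 1) - q ^ 2 / (q ^ 2 - 1) / (q ^ n) ^ 2 := by
    induction n with
    | zero => simp
    | succ n ih =>
      rw [Finset.sum_range_succ, ih]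
      have : q ^ 2 - 1 ≠ 0 := by linarith
      field_simp
      ring
  rw [this]
  have : 0 ≤ q ^ 2 / (q ^ 2 - 1) / (q ^ n) ^ 2 := by
    have : 0 < q ^ 2 - 1 := by linarith
    positivity
  linarith

lemma exists_bound (L : List (ℝ × ℝ)) : ∃ K : ℝ, 1 ≤ K ∧ ∀ p ∈ L, p.1 ≤ K := by
  induction L with
  | nil => exact ⟨1, le_rfl, by simp⟩
  | cons p L ih =>
    obtain ⟨K, h1, h2⟩ := ih
    refine ⟨max K p.1, le_max_of_le_left h1, fun r hr => ?_⟩
    rcases List.mem_cons.mp hr with rfl | hr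
    · exact le_max_right _ _
    · exact le_max_of_le_left (h2 r hr)

theorem count {G : Gg} {P L : List (ℝ × ℝ)} {q z₁ Ω : ℝ} (h : Good G P L q z₁ Ω) :
    ∃ M : ℝ, ∀ (n : ℕ) (t : Fin n → ℝ) (x : Fin n → E3) (Y : ℝ), 0 < Y → (∀ i, 0 ≤ t i) →
      (∀ i, t i ^ 2 = 1 + ‖x i‖ ^ 2) →
      (∀ i j, i ≠ j → G.s ^ 2 ≤ t i * t j - inner ℝ (x i) (x j)) →
      (∀ i, t i + ‖x i‖ ≤ Y) → (n : ℝ) ≤ Ω * Y ^ 2 / 2 + M := by
  classical
  have hG := h.hG
  have hs := hG.hs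
  have hq := h.hq
  have hq0 : 0 < q := by linarith
  have hz := h.hz
  obtain ⟨K, hK1, hK⟩ := exists_bound (P ++ L)
  have ha : 0 < G.s ^ 2 - 1 := by nlinarith
  set K₀ := 2 * G.s * K * q ^ 2 with hK₀
  have hK₀0 : 0 < K₀ := by positivity
  obtain ⟨M, hM⟩ := bounded_count K₀ (Real.sqrt_pos.mpr ha)
  have hWP := Wt_nonneg h.hP
  have hWL := Wt_nonneg h.hL
  have hq2 : 0 < q ^ 2 - 1 := by nlinarith
  have hΩ0 : 0 ≤ Ω := le_trans (by positivity) h.hΩ
  refine ⟨M, fun n t x Y hY h0 ht hsep hb => ?_⟩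
  set S : Finset (Fin n) := Finset.univ.filter fun i => t i + ‖x i‖ ≤ K₀ with hS
  have hSM : (S.card : ℝ) ≤ M := by
    have := hM (Fin n) S x (fun i hi => ?_) (fun i _ j _ hij => ?_)
    · exact_mod_cast this
    · have := (Finset.mem_filter.mp hi).2
      linarith [h0 i]
    · refine Real.sqrt_le_iff.mpr ⟨norm_nonneg _, ?_⟩
      rw [@norm_sub_sq_real]
      nlinarith [hsep i j hij, ht i, ht j, sq_nonneg (t i - t j)]
  have hb0 : ∀ i, 1 ≤ t i + ‖x i‖ := fun i => by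
    have := one_le_of_hyp (h0 i) (ht i)
    linarith [norm_nonneg (x i)]
  rcases le_or_gt Y K₀ with hYK | hYK
  · have : S = Finset.univ := by
      rw [hS]
      exact Finset.filter_true_of_mem fun i _ => (hb i).trans hYK
    rw [this, Finset.card_univ, Fintype.card_fin] at hSM
    have : 0 ≤ Ω * Y ^ 2 / 2 := by positivity
    linarith
  obtain ⟨J, hJ1, hJ2⟩ := exists_nat_pow_near ((one_le_div hK₀0).mpr hYK.le) hq
  rw [le_div_iff₀ hK₀0] at hJ1
  rw [div_lt_iff₀ hK₀0] at hJ2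
  set Φ : ℝ → ℝ := fun z => T G P z + ∑ k ∈ Finset.range (J + 3), T G L (z / q ^ k) with hΦ
  have hTL : ∀ z, 0 ≤ z → ∀ k : ℕ, 0 ≤ T G L (z / q ^ k) := fun z hz k =>
    T_nonneg hG h.hL (by positivity)
  have hthree : ∀ z, 0 ≤ z → ∀ k, k ≤ J →
      T G L (z / q ^ k) + T G L (z / q ^ (k + 1)) + T G L (z / q ^ (k + 2)) ≤
        ∑ k ∈ Finset.range (J + 3), T G L (z / q ^ k) := by
    intro z hz k hk
    have h1 : ({k, k + 1, k + 2} : Finset ℕ) ⊆ Finset.range (J + 3) := by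
      intro m hm
      simp only [Finset.mem_insert, Finset.mem_singleton] at hm
      rw [Finset.mem_range]
      omega
    have h2 := Finset.sum_le_sum_of_subset_of_nonneg h1 (fun m _ _ => hTL z hz m)
    rw [Finset.sum_insert (by simp), Finset.sum_insert (by simp), Finset.sum_singleton] at h2
    linarith
  have hΦ1 : ∀ z, 1 ≤ z → z < z₁ * q ^ (J + 1) → 1 ≤ Φ z := by
    intro z hz1 hz2
    have hz0 : 0 ≤ z := by linarith
    rcases le_total z z₁ with hzz | hzz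
    · have h1 := h.hA z hz1 hzz
      have h2 := hthree z hz0 0 (Nat.zero_le _)
      simp only [pow_zero, div_one, zero_add, pow_one] at h2
      simp only [hΦ]
      linarith
    · have hz₁0 : 0 < z₁ := by linarith
      obtain ⟨k, hk1, hk2⟩ := exists_nat_pow_near ((one_le_div hz₁0).mpr hzz) hq
      have hkJ : k ≤ J := by
        have : q ^ k < q ^ (J + 1) := by
          refine hk1.trans_lt ?_
          rw [div_lt_iff₀ hz₁0]; linarith
        have := (pow_lt_pow_iff_right₀ hq).mp this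
        omega
      have hqk : 0 < q ^ k := by positivity
      have h1 := h.hB (z / q ^ k)
        (by rw [le_div_iff₀ hqk]; rw [le_div_iff₀ hz₁0] at hk1; linarith)
        (by rw [div_le_iff₀ hqk]; rw [div_lt_iff₀ hz₁0, pow_succ] at hk2; linarith)
      have h2 := hthree z hz0 k hkJ
      rw [div_div, div_div, ← pow_succ, ← pow_add] at h1
      have h3 := T_nonneg hG h.hP hz0
      simp only [hΦ]
      linarith
  have hpt : ∀ i, (1 : ℝ) ≤ Φ (Y / (t i + ‖x i‖)) + if i ∈ S then 1 else 0 := by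
    intro i
    have hbi : 0 < t i + ‖x i‖ := by linarith [hb0 i]
    by_cases hi : i ∈ S
    · rw [if_pos hi]
      have hz0 : 0 ≤ Y / (t i + ‖x i‖) := by positivity
      have h1 := T_nonneg hG h.hP hz0
      have h2 := Finset.sum_nonneg fun k (_ : k ∈ Finset.range (J + 3)) => hTL _ hz0 k
      simp only [hΦ]
      linarith
    · rw [if_neg hi, add_zero]
      have hi' : K₀ < t i + ‖x i‖ := by simpa [hS] using hi
      refine hΦ1 _ ((one_le_div hbi).mpr (hb i)) ?_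
      rw [div_lt_iff₀ hbi]
      have hqJ : 0 < q ^ (J + 1) := by positivity
      calc Y < q ^ (J + 1) * K₀ := hJ2
        _ ≤ q ^ (J + 1) * (t i + ‖x i‖) := mul_le_mul_of_nonneg_left hi'.le hqJ.le
        _ = 1 * q ^ (J + 1) * (t i + ‖x i‖) := by ring
        _ ≤ z₁ * q ^ (J + 1) * (t i + ‖x i‖) := by gcongr
  have hval : ∀ k, k ≤ J + 2 → ∀ p ∈ P ++ L, 2 * G.s * p.1 ≤ Y / q ^ k := by
    intro k hk p hp
    have hqk : 0 < q ^ k := by positivity
    rw [le_div_iff₀ hqk]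
    have h1 : q ^ k ≤ q ^ (J + 2) := pow_le_pow_right₀ hq.le hk
    calc 2 * G.s * p.1 * q ^ k ≤ 2 * G.s * K * q ^ k := by gcongr; exact hK p hp
      _ ≤ 2 * G.s * K * q ^ (J + 2) := by gcongr
      _ = q ^ J * K₀ := by rw [hK₀]; ring
      _ ≤ Y := hJ1
  have hsumP : ∑ i, T G P (Y / (t i + ‖x i‖)) ≤ Wt P * Y ^ 2 / 2 :=
    slice_list hG t x h0 ht hsep hY P h.hP fun p hp => by
      simpa using hval 0 (Nat.zero_le _) p (List.mem_append_left _ hp)
  have hsumL : ∀ k ∈ Finset.range (J + 3),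
      ∑ i, T G L (Y / (t i + ‖x i‖) / q ^ k) ≤ Wt L * Y ^ 2 / 2 * (1 / (q ^ k) ^ 2) := by
    intro k hk
    have hk' : k ≤ J + 2 := by
      have := Finset.mem_range.mp hk
      omega
    have := slice_list hG t x h0 ht hsep (by positivity : 0 < Y / q ^ k) L h.hL
      fun p hp => hval k hk' p (List.mem_append_right _ hp)
    simp only [div_right_comm Y (q ^ k)] at this
    refine this.trans (le_of_eq ?_)
    ring
  have htot : ∑ i, Φ (Y / (t i + ‖x i‖)) ≤ Ω * Y ^ 2 / 2 := by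
    simp only [hΦ, Finset.sum_add_distrib]
    rw [Finset.sum_comm]
    have h1 := Finset.sum_le_sum hsumL
    rw [← Finset.mul_sum] at h1
    have h2 := mul_le_mul_of_nonneg_left (geom_le hq (J + 3))
      (by positivity : 0 ≤ Wt L * Y ^ 2 / 2)
    have h3 := mul_le_mul_of_nonneg_left h.hΩ (by positivity : 0 ≤ Y ^ 2 / 2)
    nlinarith
  have h1 := Finset.sum_le_sum fun i (_ : i ∈ Finset.univ) => hpt i
  simp only [Finset.sum_const, Finset.card_univ, Fintype.card_fin, nsmul_eq_mul, mul_one,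
    Finset.sum_add_distrib, Finset.sum_ite_mem, Finset.univ_inter] at h1
  linarith

end Pool.Agent.Lib.MP_1e5ad7_co
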