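import Pool.Agent.Lib.MP_1e5ad7_co.Count

set_option autoImplicit false

open Set Real Filter Topology

namespace Pool.Agent.Lib.MP_1e5ad7_co

/-- the statement for one radius -/
def Stmt (r : ℝ) : Prop :=
  ∃ N : ℕ, 0 < N ∧
      ∀ (R : ℝ) (n : ℕ) (c : EuclideanSpace ℝ (Fin 3)) (x : Fin n → EuclideanSpace ℝ (Fin 3)),
        r ≤ R → N ≤ n →
        (∀ i j : Fin n, i ≠ j →
          Real.cosh (2 * r) ≤
            Real.sqrt (1 + ‖x i‖ ^ 2) * Real.sqrt (1 + ‖x j‖ ^ 2) - inner ℝ (x i) (x j)) →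
        (∀ i : Fin n,
          Real.sqrt (1 + ‖c‖ ^ 2) * Real.sqrt (1 + ‖x i‖ ^ 2) - inner ℝ c (x i)
            ≤ Real.cosh (R - r)) →
        (n : ℝ) * (Real.sinh (2 * r) - 2 * r) <
          Real.pi / Real.sqrt 18 * (Real.sinh (2 * R) - 2 * R)

lemma boost_inv {c₀ : ℝ} {c : E3} (hc0 : 0 ≤ c₀) (hc : c₀ ^ 2 = 1 + ‖c‖ ^ 2) (t u : ℝ) (x y : E3) :
    (c₀ * t - inner ℝ c x) * (c₀ * u - inner ℝ c y) -
      inner ℝ (x + (inner ℝ c x / (1 + c₀) - t) • c) (y + (inner ℝ c y / (1 + c₀) - u) • c) =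
      t * u - inner ℝ x y := by
  have h1 : (1 + c₀) ≠ 0 := by positivity
  have h2 : inner ℝ c c = c₀ ^ 2 - 1 := by rw [real_inner_self_eq_norm_sq]; linarith
  simp only [inner_add_left, inner_add_right, real_inner_smul_left, real_inner_smul_right, h2,
    real_inner_comm c x]
  field_simp
  ring

lemma count' {G : Gg} {P L : List (ℝ × ℝ)} {q z₁ Ω : ℝ} (h : Good G P L q z₁ Ω) :
    ∃ M : ℝ, ∀ (ρ : ℝ) (n : ℕ) (c : E3) (x : Fin n → E3), 0 ≤ ρ →
      (∀ i j : Fin n, i ≠ j →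
        G.s ^ 2 ≤ √(1 + ‖x i‖ ^ 2) * √(1 + ‖x j‖ ^ 2) - inner ℝ (x i) (x j)) →
      (∀ i : Fin n, √(1 + ‖c‖ ^ 2) * √(1 + ‖x i‖ ^ 2) - inner ℝ c (x i) ≤ cosh ρ) →
      (n : ℝ) ≤ Ω * exp ρ ^ 2 / 2 + M := by
  obtain ⟨M, hM⟩ := count h
  refine ⟨M, fun ρ n c x hρ hsep hin => ?_⟩
  have hsq : ∀ y : E3, √(1 + ‖y‖ ^ 2) ^ 2 = 1 + ‖y‖ ^ 2 := fun y => Real.sq_sqrt (by positivity)
  have hc0 : 0 ≤ √(1 + ‖c‖ ^ 2) := Real.sqrt_nonneg _
  set t' : Fin n → ℝ := fun i => √(1 + ‖c‖ ^ 2) * √(1 + ‖x i‖ ^ 2) - inner ℝ c (x i) with ht'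
  set x' : Fin n → E3 := fun i =>
    x i + (inner ℝ c (x i) / (1 + √(1 + ‖c‖ ^ 2)) - √(1 + ‖x i‖ ^ 2)) • c with hx'
  have hinv : ∀ i j, t' i * t' j - inner ℝ (x' i) (x' j) =
      √(1 + ‖x i‖ ^ 2) * √(1 + ‖x j‖ ^ 2) - inner ℝ (x i) (x j) := fun i j =>
    boost_inv hc0 (hsq c) _ _ _ _
  have h0 : ∀ i, 0 ≤ t' i := by
    intro i
    have h1 := real_inner_le_norm c (x i)
    have h2 := mul_le_mul (norm_le_of_hyp hc0 (hsq c))
      (norm_le_of_hyp (Real.sqrt_nonneg _) (hsq (x i))) (norm_nonneg _) hc0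
    simp only [ht']
    linarith
  have ht : ∀ i, t' i ^ 2 = 1 + ‖x' i‖ ^ 2 := by
    intro i
    have h1 := hinv i i
    rw [real_inner_self_eq_norm_sq, real_inner_self_eq_norm_sq, ← sq, ← sq, hsq] at h1
    linarith
  refine hM n t' x' (exp ρ) (exp_pos ρ) h0 ht (fun i j hij => ?_) (fun i => ?_)
  · rw [hinv]; exact hsep i j hij
  · have h1 : t' i ≤ cosh ρ := hin i
    have h2 : ‖x' i‖ ≤ sinh ρ := by
      refine (abs_le_of_sq_le_sq' ?_ (sinh_nonneg_iff.mpr hρ)).2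
      have := pow_le_pow_left₀ (h0 i) h1 2
      rw [cosh_sq', ht i] at this
      linarith
    rw [← cosh_add_sinh]
    linarith

lemma theta_lt : (74048 / 100000 : ℝ) < π / √18 := by
  have h1 : √18 < 4242641 / 1000000 := by
    rw [Real.sqrt_lt' (by norm_num)]; norm_num
  have h2 := pi_gt_d6
  rw [lt_div_iff₀ (by positivity)]
  nlinarith

theorem stmt_of_good {G : Gg} {P L : List (ℝ × ℝ)} {q z₁ Ω : ℝ} (h : Good G P L q z₁ Ω)
    {r : ℝ} (hr : 0 < r) (hs : G.s ^ 2 ≤ cosh (2 * r))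
    (hU : Ω * (exp (-(2 * r)) * (sinh (2 * r) - 2 * r)) ≤ 74048 / 100000) : Stmt r := by
  obtain ⟨M, hM⟩ := count' h
  set κ := π / √18 with hκ
  have hθ : 74048 / 100000 < κ := theta_lt
  set δ := κ - 74048 / 100000 with hδ
  have hδ0 : 0 < δ := by linarith
  set V := sinh (2 * r) - 2 * r with hV
  have hV0 : 0 ≤ V := by
    have := (self_le_sinh_iff (x := 2 * r)).mpr (by linarith)
    linarith
  have hev : ∀ᶠ u : ℝ in atTop, M * V + κ * (1 / 2 + u) < δ * exp u / 2 := by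
    have h1 := (tendsto_exp_div_pow_atTop 1).eventually_gt_atTop
      ((|M * V| + κ / 2 + κ) * 2 / δ)
    filter_upwards [h1, eventually_ge_atTop 1] with u hu hu1
    rw [pow_one, div_lt_div_iff₀ hδ0 (by linarith)] at hu
    have := le_abs_self (M * V)
    have h2 : |M * V| + κ / 2 ≤ (|M * V| + κ / 2) * u :=
      le_mul_of_one_le_right (by positivity) hu1
    nlinarith
  obtain ⟨u₀, hu₀⟩ := eventually_atTop.mp hev
  have hΩ0 : 0 ≤ Ω := by
    have h1 := Wt_nonneg h.hP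
    have h2 := Wt_nonneg h.hL
    have hq := h.hq
    have hq2 : 0 < q ^ 2 - 1 := by nlinarith
    exact le_trans (by positivity) h.hΩ
  refine ⟨⌈Ω * exp u₀ / 2 + M⌉₊ + 1, Nat.succ_pos _, fun R n c x hrR hN hsep hin => ?_⟩
  have h1 := hM (R - r) n c x (by linarith) (fun i j hij => hs.trans (hsep i j hij)) hin
  have h2 : exp (R - r) ^ 2 = exp (2 * R) * exp (-(2 * r)) := by
    rw [← exp_nat_mul, ← exp_add]; congr 1; push_cast; ring
  have hu : u₀ ≤ 2 * R := by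
    by_contra hlt
    push Not at hlt
    have h3 : exp (R - r) ^ 2 ≤ exp u₀ := by
      rw [h2, ← exp_add]; exact exp_le_exp.mpr (by linarith)
    have h4 : (⌈Ω * exp u₀ / 2 + M⌉₊ : ℝ) + 1 ≤ n := by exact_mod_cast hN
    have h5 := Nat.le_ceil (Ω * exp u₀ / 2 + M)
    have h6 := mul_le_mul_of_nonneg_left h3 hΩ0
    linarith
  have h3 := hu₀ _ hu
  have h4 : exp (2 * R) / 2 - 1 / 2 ≤ sinh (2 * R) := by
    rw [sinh_eq]
    have : exp (-(2 * R)) ≤ 1 := exp_le_one_iff.mpr (by linarith)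
    linarith
  have h5 := mul_le_mul_of_nonneg_right h1 hV0
  have h6 := mul_le_mul_of_nonneg_left hU (exp_pos (2 * R)).le
  have h7 := mul_le_mul_of_nonneg_left h4 (by linarith : 0 ≤ κ)
  rw [h2] at h5
  rw [hδ] at h3
  rw [← hκ, ← hV]
  clear_value V κ
  linarith

/-- upper bound for the normalised ball volume, in terms of x = exp (-2r) -/
noncomputable def Ub (x : ℝ) : ℝ :=
  (1 - x ^ 2) / 2 -
    x * ∑ k ∈ Finset.range 12, 2 * (1 / (2 * k + 1)) * ((1 - x) / (1 + x)) ^ (2 * k + 1)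

lemma U_le {x' x : ℝ} (h0 : 0 ≤ x') (h1 : x' ≤ x) (hx0 : 0 < x) (hx1 : x ≤ 1) :
    (1 - x ^ 2) / 2 + x * log x ≤ Ub x' := by
  rcases h0.eq_or_lt with rfl | h0
  · have := log_nonpos hx0.le hx1
    simp only [Ub]
    nlinarith [mul_nonneg hx0.le (neg_nonneg.mpr this)]
  have hanti : AntitoneOn (fun y : ℝ => (1 - y ^ 2) / 2 + y * log y) (Ioi 0) := by
    have hd : ∀ y ∈ Ioi (0 : ℝ), HasDerivAt (fun y : ℝ => (1 - y ^ 2) / 2 + y * log y)
        (-y + (log y + 1)) y := by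
      intro y hy
      have h1 : HasDerivAt (fun y : ℝ => (1 - y ^ 2) / 2) (-y) y := by
        refine HasDerivAt.congr_deriv (((hasDerivAt_pow 2 y).const_sub 1).div_const 2) ?_
        simp; ring
      exact h1.add (hasDerivAt_mul_log (ne_of_gt hy))
    refine antitoneOn_of_deriv_nonpos (convex_Ioi 0)
      (fun y hy => (hd y hy).continuousAt.continuousWithinAt) ?_ ?_
    · rw [interior_Ioi]
      exact fun y hy => (hd y hy).differentiableAt.differentiableWithinAt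
    · rw [interior_Ioi]
      intro y hy
      rw [(hd y hy).deriv]
      have := log_le_sub_one_of_pos hy
      linarith
  refine (hanti h0 hx0 h1).trans ?_
  set τ := (1 - x') / (1 + x') with hτ
  have hτ0 : 0 ≤ τ := div_nonneg (by linarith) (by linarith)
  have hτ1 : |τ| < 1 := by
    rw [abs_of_nonneg hτ0, hτ, div_lt_one (by linarith)]; linarith
  have h2 := sum_le_hasSum (Finset.range 12) (fun k _ => by positivity)
    (hasSum_log_sub_log_of_abs_lt_one hτ1)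
  have h3 : log (1 + τ) - log (1 - τ) = -log x' := by
    have ha := (abs_lt.mp hτ1).2
    rw [← log_div (by linarith) (by linarith), ← log_inv]
    congr 1
    have hb : 1 - τ = 2 * x' / (1 + x') := by rw [hτ]; field_simp; ring
    have hc : 1 + τ = 2 / (1 + x') := by rw [hτ]; field_simp; ring
    rw [hb, hc]
    field_simp
  rw [h3] at h2
  have h4 := mul_le_mul_of_nonneg_left h2 h0.le
  simp only [Ub]
  linarith

theorem stmt_of_range {G : Gg} {P L : List (ℝ × ℝ)} {q z₁ Ω : ℝ} (h : Good G P L q z₁ Ω)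
    {xl xh : ℝ} (hxl : 0 ≤ xl) (hxh : xh ≤ 1) (hs : 2 * G.s ^ 2 * xh ≤ 1 + xh ^ 2)
    (hU : Ω * Ub xl ≤ 74048 / 100000) {r : ℝ} (hr : 0 < r) (h1 : xl ≤ exp (-(2 * r)))
    (h2 : exp (-(2 * r)) ≤ xh) : Stmt r := by
  set x := exp (-(2 * r)) with hx
  have hx0 : 0 < x := exp_pos _
  have hxi : exp (2 * r) = x⁻¹ := by rw [hx, exp_neg, inv_inv]
  have hΩ0 : 0 ≤ Ω := by
    have h1 := Wt_nonneg h.hP
    have h2 := Wt_nonneg h.hL
    have hq := h.hq
    have hq2 : 0 < q ^ 2 - 1 := by nlinarith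
    exact le_trans (by positivity) h.hΩ
  refine stmt_of_good h hr ?_ (le_trans (mul_le_mul_of_nonneg_left ?_ hΩ0) hU)
  · rw [cosh_eq, hxi, ← hx]
    have hxh0 : 0 < xh := hx0.trans_le h2
    have h3 : G.s ^ 2 ≤ (xh⁻¹ + xh) / 2 := by
      rw [le_div_iff₀ two_pos, ← mul_le_mul_iff_of_pos_right hxh0, add_mul, inv_mul_cancel₀ hxh0.ne']
      linarith
    have h4 : xh⁻¹ + xh ≤ x⁻¹ + x := by
      have : x⁻¹ + x - (xh⁻¹ + xh) = (xh - x) * (1 - x * xh) / (x * xh) := by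
        field_simp; ring
      have h5 : 0 ≤ (xh - x) * (1 - x * xh) / (x * xh) :=
        div_nonneg (mul_nonneg (by linarith) (by nlinarith)) (by positivity)
      linarith
    linarith
  · refine le_trans (le_of_eq ?_) (U_le hxl h1 hx0 (h2.trans hxh))
    rw [sinh_eq, hxi, ← hx]
    have : log x = -(2 * r) := by rw [hx, log_exp]
    rw [this]
    field_simp
    ring

end Pool.Agent.Lib.MP_1e5ad7_co
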