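import Mathlib

set_option autoImplicit false

open Finset

namespace Pool.Agent.Lib.MP_1e5ad7_co

/-- parameters of a Blichfeldt type gauge -/
structure Gg where
  s : ℝ
  β : ℝ
  κ₁ : ℝ
  σ₁ : ℝ
  κ₂ : ℝ
  σ₂ : ℝ
  σ₃ : ℝ

namespace Gg

noncomputable def g (G : Gg) (c : ℝ) : ℝ :=
  G.β * max (G.s - c) 0 + G.κ₁ * max (G.σ₁ - c) 0 + G.κ₂ * max (G.σ₂ - c) 0 -
    (G.β + G.κ₁ + G.κ₂) * max (G.σ₃ - c) 0

noncomputable def F (G : Gg) (u : ℝ) : ℝ :=
  (G.β * max (G.s - u) 0 ^ 2 + G.κ₁ * max (G.σ₁ - u) 0 ^ 2 + G.κ₂ * max (G.σ₂ - u) 0 ^ 2 -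
    (G.β + G.κ₁ + G.κ₂) * max (G.σ₃ - u) 0 ^ 2) / 2

def Line (G : Gg) (α b : ℝ) : Prop :=
  0 ≤ 2 * G.s ^ 2 * b * G.β - (G.s ^ 2 - 1) * G.β ^ 2 - 2 * (α - 1) * G.β * G.s ∧
  (α - 1) ^ 2 - b ^ 2 ≤ 2 * G.s ^ 2 * b * G.β - (G.s ^ 2 - 1) * G.β ^ 2 - 2 * (α - 1) * G.β * G.s

structure Valid (G : Gg) : Prop where
  hs : 1 < G.s
  hβ : 0 ≤ G.β
  hκ₁ : 0 ≤ G.κ₁
  hκ₂ : 0 ≤ G.κ₂
  h32 : G.σ₃ ≤ G.σ₂
  h21 : G.σ₂ ≤ G.σ₁
  h1s : G.σ₁ ≤ G.s
  hin : 2 * G.σ₁ ^ 2 ≤ G.s ^ 2 + 1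
  hcap : G.β * (G.s - G.σ₃) + G.κ₁ * (G.σ₁ - G.σ₃) + G.κ₂ * (G.σ₂ - G.σ₃) ≤ 1
  l0 : G.Line (G.β * G.s) G.β
  l1 : G.Line (G.β * G.s + G.κ₁ * G.σ₁) (G.β + G.κ₁)
  l2 : G.Line (G.β * G.s + G.κ₁ * G.σ₁ + G.κ₂ * G.σ₂) (G.β + G.κ₁ + G.κ₂)

variable {G : Gg}

lemma g_of_ge (h : G.Valid) {c : ℝ} (hc : G.σ₁ ≤ c) : G.g c = G.β * max (G.s - c) 0 := by
  have := h.h32; have := h.h21
  unfold g
  rw [max_eq_right (by linarith : G.σ₁ - c ≤ 0), max_eq_right (by linarith : G.σ₂ - c ≤ 0),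
    max_eq_right (by linarith : G.σ₃ - c ≤ 0)]
  ring

lemma g_eq_zero (h : G.Valid) {c : ℝ} (hc : G.s ≤ c) : G.g c = 0 := by
  rw [g_of_ge h (h.h1s.trans hc), max_eq_right (by linarith), mul_zero]

lemma g_nonneg (h : G.Valid) (c : ℝ) : 0 ≤ G.g c := by
  have h1 : max (G.σ₃ - c) 0 ≤ max (G.s - c) 0 :=
    max_le_max_right _ (by linarith [h.h32, h.h21, h.h1s])
  have h2 : max (G.σ₃ - c) 0 ≤ max (G.σ₁ - c) 0 :=
    max_le_max_right _ (by linarith [h.h32, h.h21])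
  have h3 : max (G.σ₃ - c) 0 ≤ max (G.σ₂ - c) 0 := max_le_max_right _ (by linarith [h.h32])
  have := mul_le_mul_of_nonneg_left h1 h.hβ
  have := mul_le_mul_of_nonneg_left h2 h.hκ₁
  have := mul_le_mul_of_nonneg_left h3 h.hκ₂
  unfold g
  linarith

lemma F_nonneg (h : G.Valid) (c : ℝ) : 0 ≤ G.F c := by
  have h0 : 0 ≤ max (G.σ₃ - c) 0 := le_max_right _ _
  have h1 : max (G.σ₃ - c) 0 ≤ max (G.s - c) 0 :=
    max_le_max_right _ (by linarith [h.h32, h.h21, h.h1s])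
  have h2 : max (G.σ₃ - c) 0 ≤ max (G.σ₁ - c) 0 :=
    max_le_max_right _ (by linarith [h.h32, h.h21])
  have h3 : max (G.σ₃ - c) 0 ≤ max (G.σ₂ - c) 0 := max_le_max_right _ (by linarith [h.h32])
  have := mul_le_mul_of_nonneg_left (pow_le_pow_left₀ h0 h1 2) h.hβ
  have := mul_le_mul_of_nonneg_left (pow_le_pow_left₀ h0 h2 2) h.hκ₁
  have := mul_le_mul_of_nonneg_left (pow_le_pow_left₀ h0 h3 2) h.hκ₂
  unfold F
  linarith

lemma F_eq_zero (h : G.Valid) {c : ℝ} (hc : G.s ≤ c) : G.F c = 0 := by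
  have := h.h32; have := h.h21; have := h.h1s
  unfold F
  rw [max_eq_right (by linarith : G.s - c ≤ 0), max_eq_right (by linarith : G.σ₁ - c ≤ 0),
    max_eq_right (by linarith : G.σ₂ - c ≤ 0), max_eq_right (by linarith : G.σ₃ - c ≤ 0)]
  ring

lemma g_le_one (h : G.Valid) (c : ℝ) : G.g c ≤ 1 := by
  have key : ∀ σ : ℝ, G.σ₃ ≤ σ → max (σ - c) 0 - max (G.σ₃ - c) 0 ≤ σ - G.σ₃ := by
    intro σ hσ
    have := le_max_left (G.σ₃ - c) 0
    have := le_max_right (G.σ₃ - c) 0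
    have : max (σ - c) 0 ≤ max (G.σ₃ - c) 0 + (σ - G.σ₃) := max_le (by linarith) (by linarith)
    linarith
  have h1 := mul_le_mul_of_nonneg_left (key G.s (by linarith [h.h32, h.h21, h.h1s])) h.hβ
  have h2 := mul_le_mul_of_nonneg_left (key G.σ₁ (by linarith [h.h32, h.h21])) h.hκ₁
  have h3 := mul_le_mul_of_nonneg_left (key G.σ₂ h.h32) h.hκ₂
  have := h.hcap
  unfold g
  linarith

lemma exists_line (h : G.Valid) {c : ℝ} (hc : c ≤ G.s) :
    ∃ α b : ℝ, 0 ≤ b ∧ G.Line α b ∧ G.g c ≤ α - b * c := by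
  have hβ := h.hβ; have hκ₁ := h.hκ₁; have hκ₂ := h.hκ₂
  have h3 : 0 ≤ (G.β + G.κ₁ + G.κ₂) * max (G.σ₃ - c) 0 := by positivity
  rcases le_total G.σ₁ c with h1 | h1
  · refine ⟨_, _, hβ, h.l0, ?_⟩
    rw [g_of_ge h h1, max_eq_left (by linarith)]
    linarith
  rcases le_total G.σ₂ c with h2 | h2
  · refine ⟨_, _, by positivity, h.l1, ?_⟩
    unfold g
    rw [max_eq_left (by linarith : 0 ≤ G.s - c), max_eq_left (by linarith : 0 ≤ G.σ₁ - c),
      max_eq_right (by linarith : G.σ₂ - c ≤ 0)]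
    linarith
  · refine ⟨_, _, by positivity, h.l2, ?_⟩
    unfold g
    rw [max_eq_left (by linarith : 0 ≤ G.s - c), max_eq_left (by linarith : 0 ≤ G.σ₁ - c),
      max_eq_left (by linarith : 0 ≤ G.σ₂ - c)]
    linarith

theorem sum_g_le_one (h : G.Valid) {ι : Type} [Fintype ι] (c : ι → ℝ)
    (hB : ∀ l : ι → ℝ, (∀ i, 0 ≤ l i) → 0 ≤ ∑ i, l i * c i ∧
      G.s ^ 2 * (∑ i, l i) ^ 2 - (G.s ^ 2 - 1) * ∑ i, l i ^ 2 ≤ (∑ i, l i * c i) ^ 2) :
    ∑ i, G.g (c i) ≤ 1 := by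
  classical
  rcases isEmpty_or_nonempty ι with hι | hι
  · simp
  obtain ⟨i₀, -, hi₀⟩ := Finset.exists_min_image univ c univ_nonempty
  have hout : ∀ j, j ≠ i₀ → G.σ₁ ≤ c j := by
    intro j hj
    obtain ⟨h1, h2⟩ := hB (fun i => (if i = i₀ then 1 else 0) + (if i = j then 1 else 0))
      (fun i => by positivity)
    have e1 : ∑ i, ((if i = i₀ then (1 : ℝ) else 0) + (if i = j then 1 else 0)) * c i =
        c i₀ + c j := by
      simp [add_mul, sum_add_distrib]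
    have e2 : ∑ i, ((if i = i₀ then (1 : ℝ) else 0) + (if i = j then 1 else 0)) = 2 := by
      simp [sum_add_distrib]; norm_num
    have e3 : ∑ i, ((if i = i₀ then (1 : ℝ) else 0) + (if i = j then 1 else 0)) ^ 2 = 2 := by
      rw [← e2]
      refine sum_congr rfl fun i _ => ?_
      by_cases a : i = i₀
      · have : i ≠ j := fun b => hj (b.symm.trans a)
        simp [a, hj.symm]
      · by_cases b : i = j <;> simp [a, b, hj]
    rw [e1] at h1
    rw [e1, e2, e3] at h2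
    have h3 := hi₀ j (mem_univ _)
    have h4 := h.hin
    by_contra hlt
    push Not at hlt
    nlinarith
  set S : Finset ι := univ.filter fun j => j ≠ i₀ ∧ c j < G.s with hS
  have hsum : ∑ i, G.g (c i) = G.g (c i₀) + ∑ j ∈ S, G.β * (G.s - c j) := by
    rw [← Finset.add_sum_erase univ _ (mem_univ i₀), hS, sum_filter,
      ← Finset.add_sum_erase univ _ (mem_univ i₀)]
    simp only [ne_eq, not_true_eq_false, false_and, if_false, zero_add]
    congr 1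
    refine sum_congr rfl fun j hj => ?_
    have hj' : j ≠ i₀ := (mem_erase.mp hj).1
    rw [g_of_ge h (hout j hj')]
    by_cases b : c j < G.s
    · rw [if_pos ⟨hj', b⟩, max_eq_left (by linarith)]
    · rw [if_neg (fun x => b x.2), max_eq_right (by linarith), mul_zero]
  rcases S.eq_empty_or_nonempty with hE | ⟨j₀, hj₀⟩
  · rw [hsum, hE, sum_empty, add_zero]
    exact g_le_one h _
  have hc₀ : c i₀ ≤ G.s := by
    have := (mem_filter.mp hj₀).2.2
    linarith [hi₀ j₀ (mem_univ _)]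
  obtain ⟨α, b, hb, ⟨hl1, hl2⟩, hg⟩ := exists_line h hc₀
  have hi₀S : i₀ ∉ S := by simp [hS]
  have hβ := h.hβ
  obtain ⟨h1, h2⟩ := hB (fun i => (if i = i₀ then b else 0) + (if i ∈ S then G.β else 0))
    (fun i => by positivity)
  have e1 : ∑ i, ((if i = i₀ then b else 0) + (if i ∈ S then G.β else 0)) * c i =
      b * c i₀ + G.β * ∑ j ∈ S, c j := by
    simp [add_mul, sum_add_distrib, mul_sum]
  have e2 : ∑ i, ((if i = i₀ then b else 0) + (if i ∈ S then G.β else 0)) =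
      b + S.card * G.β := by
    simp [sum_add_distrib]
  have e3 : ∑ i, ((if i = i₀ then b else 0) + (if i ∈ S then G.β else 0)) ^ 2 =
      b ^ 2 + S.card * G.β ^ 2 := by
    have : ∀ i, ((if i = i₀ then b else 0) + (if i ∈ S then G.β else 0)) ^ 2 =
        (if i = i₀ then b ^ 2 else 0) + (if i ∈ S then G.β ^ 2 else 0) := by
      intro i
      by_cases a : i = i₀
      · simp [a, hi₀S]
      · by_cases b : i ∈ S <;> simp [a, b]
    simp [this, sum_add_distrib]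
  rw [e1] at h1
  rw [e1, e2, e3] at h2
  have hm : (1 : ℝ) ≤ S.card := by exact_mod_cast card_pos.mpr ⟨j₀, hj₀⟩
  have e4 : ∑ j ∈ S, G.β * (G.s - c j) = S.card * G.β * G.s - G.β * ∑ j ∈ S, c j := by
    simp [mul_sub, sum_sub_distrib, mul_sum, mul_assoc]
  rw [hsum, e4]
  set m : ℝ := (S.card : ℝ) with hmdef
  set X := b * c i₀ + G.β * ∑ j ∈ S, c j with hX
  have h5 : (α + m * G.β * G.s - 1) ^ 2 ≤ X ^ 2 := by
    have := mul_le_mul_of_nonneg_right hm hl1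
    nlinarith
  have h6 : α + m * G.β * G.s - 1 ≤ X := (abs_le_of_sq_le_sq' h5 h1).2
  linarith

lemma hasDerivAt_posSq (u : ℝ) : HasDerivAt (fun x : ℝ => max x 0 ^ 2) (2 * max u 0) u := by
  rcases lt_trichotomy u 0 with h | h | h
  · rw [max_eq_right h.le, mul_zero]
    refine (hasDerivAt_const u (0 : ℝ)).congr_of_eventuallyEq ?_
    filter_upwards [Iio_mem_nhds h] with x hx
    rw [max_eq_right (le_of_lt hx)]; simp
  · subst h
    rw [hasDerivAt_iff_isLittleO_nhds_zero]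
    simp only [zero_add, max_self, mul_zero, smul_zero, sub_zero, ne_eq, OfNat.ofNat_ne_zero,
      not_false_eq_true, zero_pow]
    refine Asymptotics.IsBigO.trans_isLittleO (g := fun x : ℝ => x ^ 2) ?_
      (Asymptotics.isLittleO_pow_id one_lt_two)
    refine Asymptotics.IsBigO.of_bound 1 (Filter.Eventually.of_forall fun x => ?_)
    rcases le_total x 0 with hx | hx
    · rw [max_eq_right hx]; simp; positivity
    · rw [max_eq_left hx]; simp
  · rw [max_eq_left h.le]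
    have : HasDerivAt (fun x : ℝ => x ^ 2) (2 * u) u := by simpa using hasDerivAt_pow 2 u
    refine this.congr_of_eventuallyEq ?_
    filter_upwards [Ioi_mem_nhds h] with x hx
    rw [max_eq_left (le_of_lt hx)]

lemma hasDerivAt_F (G : Gg) (u : ℝ) : HasDerivAt G.F (-G.g u) u := by
  have key : ∀ σ : ℝ, HasDerivAt (fun x : ℝ => max (σ - x) 0 ^ 2) (2 * max (σ - u) 0 * (-1)) u := by
    intro σ
    have h1 : HasDerivAt (fun x : ℝ => σ - x) (-1) u := by simpa using (hasDerivAt_id u).const_sub σ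
    exact (hasDerivAt_posSq (σ - u)).comp u h1
  have := (((((key G.s).const_mul G.β).add ((key G.σ₁).const_mul G.κ₁)).add
    ((key G.σ₂).const_mul G.κ₂)).sub ((key G.σ₃).const_mul (G.β + G.κ₁ + G.κ₂))).div_const 2
  refine HasDerivAt.congr_deriv this ?_
  unfold g
  ring

lemma continuous_g (G : Gg) : Continuous G.g := by
  unfold g
  fun_prop

end Gg

end Pool.Agent.Lib.MP_1e5ad7_co
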