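import Pool.Agent.Lib.MP_1e5ad7_co.Arch
import Pool.Agent.Lib.MP_1e5ad7_co.Gauge

set_option autoImplicit false

open MeasureTheory Set Real
open scoped ENNReal

namespace Pool.Agent.Lib.MP_1e5ad7_co

lemma norm_le_of_hyp {t : ℝ} {x : E3} (h0 : 0 ≤ t) (h : t ^ 2 = 1 + ‖x‖ ^ 2) : ‖x‖ ≤ t :=
  (abs_le_of_sq_le_sq' (by linarith) h0).2

lemma one_le_of_hyp {t : ℝ} {x : E3} (h0 : 0 ≤ t) (h : t ^ 2 = 1 + ‖x‖ ^ 2) : 1 ≤ t :=
  (abs_le_of_sq_le_sq' (by nlinarith [sq_nonneg ‖x‖]) h0).2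

lemma blich {ι : Type} [Fintype ι] (a : ℝ) (t : ι → ℝ) (x : ι → E3) (h0 : ∀ i, 0 ≤ t i)
    (ht : ∀ i, t i ^ 2 = 1 + ‖x i‖ ^ 2)
    (hsep : ∀ i j, i ≠ j → a ≤ t i * t j - inner ℝ (x i) (x j))
    (p₀ : ℝ) (p : E3) (hp0 : 0 ≤ p₀) (hp : p₀ ^ 2 = 1 + ‖p‖ ^ 2)
    (l : ι → ℝ) (hl : ∀ i, 0 ≤ l i) :
    0 ≤ ∑ i, l i * (p₀ * t i - inner ℝ p (x i)) ∧
      a * (∑ i, l i) ^ 2 - (a - 1) * ∑ i, l i ^ 2 ≤
        (∑ i, l i * (p₀ * t i - inner ℝ p (x i))) ^ 2 := by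
  classical
  set W₀ : ℝ := ∑ i, l i * t i with hW₀
  set W : E3 := ∑ i, l i • x i with hW
  have e1 : ∑ i, l i * (p₀ * t i - inner ℝ p (x i)) = p₀ * W₀ - inner ℝ p W := by
    rw [hW₀, hW, inner_sum, Finset.mul_sum, ← Finset.sum_sub_distrib]
    refine Finset.sum_congr rfl fun i _ => ?_
    rw [real_inner_smul_right]
    ring
  have hWW : ‖W‖ ≤ W₀ := by
    refine (norm_sum_le _ _).trans (Finset.sum_le_sum fun i _ => ?_)
    rw [norm_smul, Real.norm_of_nonneg (hl i)]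
    exact mul_le_mul_of_nonneg_left (norm_le_of_hyp (h0 i) (ht i)) (hl i)
  have hpp : ‖p‖ ≤ p₀ := norm_le_of_hyp hp0 hp
  have hcs : inner ℝ p W ≤ ‖p‖ * ‖W‖ := real_inner_le_norm _ _
  have h1 : ‖p‖ * ‖W‖ ≤ p₀ * W₀ := mul_le_mul hpp hWW (norm_nonneg _) hp0
  have e2 : W₀ ^ 2 - ‖W‖ ^ 2 = ∑ i, ∑ j, l i * l j * (t i * t j - inner ℝ (x i) (x j)) := by
    rw [← real_inner_self_eq_norm_sq, hW₀, hW, sum_inner, sq, Finset.sum_mul_sum,
      ← Finset.sum_sub_distrib]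
    refine Finset.sum_congr rfl fun i _ => ?_
    rw [inner_sum, ← Finset.sum_sub_distrib]
    refine Finset.sum_congr rfl fun j _ => ?_
    rw [real_inner_smul_left, real_inner_smul_right]
    ring
  have e3 : a * (∑ i, l i) ^ 2 - (a - 1) * ∑ i, l i ^ 2 =
      ∑ i, ∑ j, l i * l j * (if i = j then 1 else a) := by
    have : ∀ i j, l i * l j * (if i = j then 1 else a) =
        a * (l i * l j) - (if i = j then (a - 1) * l i ^ 2 else 0) := by
      intro i j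
      by_cases h : i = j
      · subst h; simp; ring
      · simp [h]; ring
    simp only [this, Finset.sum_sub_distrib, Finset.sum_ite_eq, Finset.mem_univ, if_true]
    rw [sq, Finset.sum_mul_sum, Finset.mul_sum, Finset.mul_sum]
    simp only [Finset.mul_sum]
  have h2 : a * (∑ i, l i) ^ 2 - (a - 1) * ∑ i, l i ^ 2 ≤ W₀ ^ 2 - ‖W‖ ^ 2 := by
    rw [e2, e3]
    refine Finset.sum_le_sum fun i _ => Finset.sum_le_sum fun j _ => ?_
    refine mul_le_mul_of_nonneg_left ?_ (mul_nonneg (hl i) (hl j))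
    by_cases h : i = j
    · subst h
      rw [if_pos rfl, real_inner_self_eq_norm_sq]
      nlinarith [ht i]
    · rw [if_neg h]
      exact hsep i j h
  rw [e1]
  refine ⟨by linarith, h2.trans ?_⟩
  have h3 : (p₀ * W₀ - ‖p‖ * ‖W‖) ^ 2 ≤ (p₀ * W₀ - inner ℝ p W) ^ 2 :=
    pow_le_pow_left₀ (by linarith) (by linarith) 2
  refine le_trans ?_ h3
  have h4 : (p₀ * W₀ - ‖p‖ * ‖W‖) ^ 2 - (p₀ ^ 2 - ‖p‖ ^ 2) * (W₀ ^ 2 - ‖W‖ ^ 2) =
      (p₀ * ‖W‖ - ‖p‖ * W₀) ^ 2 := by ring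
  have h5 : p₀ ^ 2 - ‖p‖ ^ 2 = 1 := by linarith
  rw [h5] at h4
  nlinarith [sq_nonneg (p₀ * ‖W‖ - ‖p‖ * W₀)]

lemma half_circle {G : Gg} (hG : G.Valid) {A B : ℝ} (hA : 0 < A) (hAB : G.s ≤ B + A) :
    ENNReal.ofReal (G.F (B - A) / A) ≤
      ∫⁻ φ in Ioo (-π) π, ENNReal.ofReal (sin φ) * ENNReal.ofReal (G.g (B - A * cos φ)) := by
  have hc : Continuous fun φ => sin φ * G.g (B - A * cos φ) := by
    have := G.continuous_g
    fun_prop
  have hd : ∀ φ ∈ uIcc 0 π, HasDerivAt (fun φ => -(G.F (B - A * cos φ)) / A)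
      (sin φ * G.g (B - A * cos φ)) φ := by
    intro φ _
    have h1 : HasDerivAt (fun φ => B - A * cos φ) (A * sin φ) φ := by
      simpa using ((hasDerivAt_cos φ).const_mul A).const_sub B
    have h2 := ((G.hasDerivAt_F (B - A * cos φ)).comp φ h1).neg.div_const A
    refine HasDerivAt.congr_deriv h2 ?_
    field_simp
  have h3 := intervalIntegral.integral_eq_sub_of_hasDerivAt hd (hc.intervalIntegrable _ _)
  rw [cos_pi, cos_zero, mul_neg_one, sub_neg_eq_add, Gg.F_eq_zero hG hAB, mul_one] at h3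
  have h4 : G.F (B - A) / A = ∫ φ in Ioo 0 π, sin φ * G.g (B - A * cos φ) := by
    rw [← integral_Ioc_eq_integral_Ioo, ← intervalIntegral.integral_of_le pi_pos.le, h3]
    ring
  rw [h4, ofReal_integral_eq_lintegral_ofReal]
  · refine le_trans (le_of_eq ?_)
      (lintegral_mono_set (Ioo_subset_Ioo_left (by linarith [pi_pos] : -π ≤ 0)))
    refine setLIntegral_congr_fun measurableSet_Ioo fun φ hφ => ?_
    exact ENNReal.ofReal_mul (sin_nonneg_of_nonneg_of_le_pi hφ.1.le hφ.2.le)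
  · exact hc.integrableOn_Icc.mono_set Ioo_subset_Icc_self
  · refine (ae_restrict_iff' measurableSet_Ioo).2 (Filter.Eventually.of_forall fun φ hφ => ?_)
    exact mul_nonneg (sin_nonneg_of_nonneg_of_le_pi hφ.1.le hφ.2.le) (Gg.g_nonneg hG _)

lemma avg_point {G : Gg} (hG : G.Valid) {η : ℝ} (hη : 2 * G.s ≤ η) {t : ℝ} {x : E3}
    (h0 : 0 ≤ t) (ht : t ^ 2 = 1 + ‖x‖ ^ 2) :
    ENNReal.ofReal (π * 4 / 3 * (2 / (η * (t + ‖x‖)) *
        G.F ((η / (t + ‖x‖) + (t + ‖x‖) / η) / 2))) ≤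
      ∫⁻ ω in Metric.ball (0 : E3) 1, ENNReal.ofReal
        (G.g ((η + η⁻¹) / 2 * t - inner ℝ (((η - η⁻¹) / 2 / ‖ω‖) • ω) x)) := by
  have hs := hG.hs
  have hη1 : 1 < η := by linarith
  have hη0 : 0 < η := by linarith
  have hηi : 0 < η⁻¹ := inv_pos.mpr hη0
  have hηi1 : η⁻¹ < 1 := inv_lt_one_of_one_lt₀ hη1
  have ht1 := one_le_of_hyp h0 ht
  by_cases hx : x = 0
  · subst hx
    have : t = 1 := by
      simp only [norm_zero] at ht
      nlinarith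
    subst this
    rw [Gg.F_eq_zero hG]
    · simp
    · simp only [norm_zero, add_zero, div_one, one_div]
      linarith
  have hn : 0 < ‖x‖ := norm_pos_iff.mpr hx
  set b := t + ‖x‖ with hb
  have hb0 : 0 < b := by positivity
  have hbi : t - ‖x‖ = b⁻¹ := by
    rw [hb]; field_simp; linarith
  set A := (η - η⁻¹) / 2 * ‖x‖ with hA
  set B := (η + η⁻¹) / 2 * t with hB
  have hA0 : 0 < A := by
    have : 0 < (η - η⁻¹) / 2 := by linarith
    positivity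
  have hBA : B - A = (η / b + b / η) / 2 := by
    rw [div_eq_mul_inv η b, ← hbi, div_eq_mul_inv b η, hA, hB, hb]
    ring
  have hAB : G.s ≤ B + A := by
    have : (η + η⁻¹) / 2 * 1 ≤ B := mul_le_mul_of_nonneg_left ht1 (by positivity)
    linarith
  have hAle : A ≤ η * b / 4 := by
    have h1 : ‖x‖ ≤ b / 2 := by linarith [norm_le_of_hyp h0 ht]
    have h2 : (η - η⁻¹) / 2 ≤ η / 2 := by linarith
    calc A ≤ η / 2 * (b / 2) := mul_le_mul h2 h1 hn.le (by positivity)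
      _ = η * b / 4 := by ring
  have hv : ‖(‖x‖⁻¹ • x : E3)‖ = 1 := by
    rw [norm_smul, norm_inv, norm_norm, inv_mul_cancel₀ hn.ne']
  have hψ : Measurable fun u : ℝ => ENNReal.ofReal (G.g (B - A * u)) := by
    have := G.continuous_g
    fun_prop
  have h1 := arch _ hψ _ hv
  have h2 : ∀ ω : E3, B - inner ℝ (((η - η⁻¹) / 2 / ‖ω‖) • ω) x =
      B - A * (inner ℝ ω (‖x‖⁻¹ • x : E3) / ‖ω‖) := by
    intro ω
    rw [real_inner_smul_left, real_inner_smul_right, hA]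
    field_simp
  simp_rw [h2]
  rw [h1]
  refine le_trans ?_ (mul_le_mul_right (half_circle hG hA0 hAB) _)
  rw [← ENNReal.ofReal_mul (by positivity), ← hBA]
  refine ENNReal.ofReal_le_ofReal ?_
  have hF := Gg.F_nonneg hG (B - A)
  have h3 : 4 / (η * b) ≤ 1 / A := by
    rw [div_le_div_iff₀ (by positivity) hA0]
    linarith
  have h4 := mul_le_mul_of_nonneg_left h3 (by positivity : 0 ≤ 2 * π / 3 * G.F (B - A))
  calc π * 4 / 3 * (2 / (η * b) * G.F (B - A)) = 2 * π / 3 * G.F (B - A) * (4 / (η * b)) := by ring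
    _ ≤ 2 * π / 3 * G.F (B - A) * (1 / A) := h4
    _ = 2 * π / 3 * (G.F (B - A) / A) := by ring

theorem slice {G : Gg} (hG : G.Valid) {ι : Type} [Fintype ι] (t : ι → ℝ) (x : ι → E3)
    (h0 : ∀ i, 0 ≤ t i) (ht : ∀ i, t i ^ 2 = 1 + ‖x i‖ ^ 2)
    (hsep : ∀ i j, i ≠ j → G.s ^ 2 ≤ t i * t j - inner ℝ (x i) (x j))
    {η : ℝ} (hη : 2 * G.s ≤ η) :
    ∑ i, 2 / (η * (t i + ‖x i‖)) * G.F ((η / (t i + ‖x i‖) + (t i + ‖x i‖) / η) / 2) ≤ 1 := by
  have hs := hG.hs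
  have hη1 : 1 < η := by linarith
  have hη0 : 0 < η := by linarith
  have hηi : 0 < η⁻¹ := inv_pos.mpr hη0
  have hηi1 : η⁻¹ < 1 := inv_lt_one_of_one_lt₀ hη1
  have hnn : ∀ i, 0 ≤ 2 / (η * (t i + ‖x i‖)) *
      G.F ((η / (t i + ‖x i‖) + (t i + ‖x i‖) / η) / 2) := fun i =>
    mul_nonneg (by have := h0 i; positivity) (Gg.F_nonneg hG _)
  have hm : ∀ i, Measurable fun ω : E3 => ENNReal.ofReal
      (G.g ((η + η⁻¹) / 2 * t i - inner ℝ (((η - η⁻¹) / 2 / ‖ω‖) • ω) (x i))) := by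
    intro i
    refine (ENNReal.measurable_ofReal.comp G.continuous_g.measurable).comp ?_
    refine Measurable.const_sub ?_ _
    simp_rw [real_inner_smul_left]
    fun_prop
  have h1 : ENNReal.ofReal (π * 4 / 3 * ∑ i, 2 / (η * (t i + ‖x i‖)) *
      G.F ((η / (t i + ‖x i‖) + (t i + ‖x i‖) / η) / 2)) ≤ ENNReal.ofReal (π * 4 / 3) := by
    rw [Finset.mul_sum, ENNReal.ofReal_sum_of_nonneg
      (fun i _ => mul_nonneg (by positivity) (hnn i))]
    refine (Finset.sum_le_sum fun i _ => avg_point hG hη (h0 i) (ht i)).trans ?_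
    rw [← lintegral_finsetSum _ fun i _ => hm i]
    have hv : ENNReal.ofReal (π * 4 / 3) = ∫⁻ _ in Metric.ball (0 : E3) 1, 1 := by
      rw [setLIntegral_one, EuclideanSpace.volume_ball_fin_three]
      simp
    rw [hv]
    refine lintegral_mono_ae (ae_restrict_of_ae ?_)
    have hae : ∀ᵐ ω : E3, ω ≠ 0 := by
      rw [ae_iff]; simp
    filter_upwards [hae] with ω hω
    rw [← ENNReal.ofReal_sum_of_nonneg (fun i _ => Gg.g_nonneg hG _), ← ENNReal.ofReal_one]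
    refine ENNReal.ofReal_le_ofReal (Gg.sum_g_le_one hG _ ?_)
    intro l hl
    refine blich (G.s ^ 2) t x h0 ht hsep _ _ (by positivity) ?_ l hl
    have hn : 0 < ‖ω‖ := norm_pos_iff.mpr hω
    rw [norm_smul, Real.norm_eq_abs, mul_pow, sq_abs]
    field_simp
    ring
  rw [ENNReal.ofReal_le_ofReal_iff (by positivity)] at h1
  have hp : 0 < π * 4 / 3 := by positivity
  by_contra hlt
  push Not at hlt
  nlinarith

end Pool.Agent.Lib.MP_1e5ad7_co
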